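import Mathlib

/-!
Oracle machines, the relativized polynomial hierarchy, and the second level of the low hierarchy.

A machine is a finite program acting on stacks of bits (a multi-tape machine whose tapes are stacks),
with a query instruction that asks the oracle about the word written on one of its stacks.
-/

namespace Pool.Agent.Helper62.CS

open Classical

/-- Words over the binary alphabet. -/
abbrev Str := List Bool

/-- Languages; oracles are languages. -/
abbrev Lang := Set (List Bool)

/-- Instructions of an oracle stack machine. -/
inductive Instr
  /-- push the bit `b` on stack `i`, go to line `next` -/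
  | push (i : ℕ) (b : Bool) (next : ℕ)
  /-- pop a bit from stack `i` and branch: empty stack, bit `false`, bit `true` -/
  | pop (i : ℕ) (onNil onFalse onTrue : ℕ)
  /-- ask whether the word on stack `i` belongs to the oracle and branch -/
  | query (i : ℕ) (onNo onYes : ℕ)
  /-- halt and accept -/
  | accept
  /-- halt and reject -/
  | reject

/-- A program is a finite list of instructions. -/
abbrev Prog := List Instr

/-- Configurations: the current line and the contents of the stacks. -/
structure Cfg where
  pc : ℕ
  st : ℕ → Str

/-- One step, when the oracle answer to the current query (if there is one) is `a`. -/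
def stepA (P : Prog) (a : Bool) (c : Cfg) : Cfg :=
  match P[c.pc]? with
  | some (Instr.push i b n) => ⟨n, Function.update c.st i (b :: c.st i)⟩
  | some (Instr.pop i n f t) =>
      match c.st i with
      | [] => ⟨n, c.st⟩
      | false :: l => ⟨f, Function.update c.st i l⟩
      | true :: l => ⟨t, Function.update c.st i l⟩
  | some (Instr.query _ no yes) => ⟨if a then yes else no, c.st⟩
  | _ => c

/-- The word that is asked in the configuration `c` (the empty word if there is no query). -/
def qstr (P : Prog) (c : Cfg) : Str :=
  match P[c.pc]? with
  | some (Instr.query i _ _) => c.st i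
  | _ => []

/-- One step with oracle `O`. -/
noncomputable def step (P : Prog) (O : Lang) (c : Cfg) : Cfg :=
  stepA P (decide (qstr P c ∈ O)) c

/-- The initial configuration: line `0`, the inputs on the first stacks, all other stacks empty. -/
def init (inp : List Str) : Cfg := ⟨0, fun i => inp.getD i []⟩

/-- The machine `P` with oracle `O` accepts the inputs `inp` within `T` steps. -/
def Accepts (P : Prog) (O : Lang) (inp : List Str) (T : ℕ) : Prop :=
  P[((step P O)^[T] (init inp)).pc]? = some Instr.accept

/-- The class `P(O)`: deterministic polynomial time with oracle `O`. -/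
def PClass (O : Lang) : Set Lang :=
  {L | ∃ (P : Prog) (c : ℕ), ∀ x : Str, x ∈ L ↔ Accepts P O [x] (x.length ^ c + c)}

/-- The class `NP(O)`: nondeterministic polynomial time with oracle `O`. -/
def NPClass (O : Lang) : Set Lang :=
  {L | ∃ (P : Prog) (c : ℕ), ∀ x : Str,
    x ∈ L ↔ ∃ y : Str, y.length ≤ x.length ^ c + c ∧ Accepts P O [x, y] (x.length ^ c + c)}

/-- The relativized polynomial hierarchy: `SigmaP 0 O = P(O)` and
`SigmaP (k+1) O = NP(SigmaP k O)`. -/
def SigmaP : ℕ → Lang → Set Lang
  | 0, O => PClass O
  | k + 1, O => {L | ∃ B ∈ SigmaP k O, L ∈ NPClass B}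

/-- The join of two oracles. -/
def join (A B : Lang) : Lang :=
  {x | ∃ y : Str, (x = false :: y ∧ y ∈ A) ∨ (x = true :: y ∧ y ∈ B)}

/-- A set is sparse if it has at most polynomially many words of length at most `n`. -/
def Sparse (S : Lang) : Prop :=
  ∃ c : ℕ, ∀ n : ℕ, {x ∈ S | x.length ≤ n}.Finite ∧ {x ∈ S | x.length ≤ n}.ncard ≤ n ^ c + c

/-- A set is co-sparse if its complement is sparse. -/
def CoSparse (A : Lang) : Prop := Sparse Aᶜ

/-- The level `k` of the low hierarchy inside `NP`, relative to the oracle `O`
(for `O = ∅` this is the class of the problem file). -/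
def Low (k : ℕ) (O : Lang) : Set Lang :=
  {A | A ∈ NPClass O ∧ SigmaP k (join A O) = SigmaP k O}

/-- The fair coin. -/
noncomputable def coin : MeasureTheory.Measure Bool := (PMF.uniformOfFintype Bool).toMeasure

/-- A random oracle: every word is put into the oracle independently with probability one half. -/
noncomputable def randomOracle : MeasureTheory.Measure (Str → Bool) :=
  MeasureTheory.Measure.infinitePi (fun _ => coin)

/-- The oracle given by a function. -/
def orc (R : Str → Bool) : Lang := {x | R x = true}

/-- The target. -/
def Target : Prop :=
  ∃ T : Lang, ∀ᵐ R ∂randomOracle,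
    ∃ A : Lang, CoSparse A ∧ A ∈ NPClass (join T (orc R)) ∧ A ∉ Low 2 (join T (orc R))

end Pool.Agent.Helper62.CS
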