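import Pool.Agent.Helper62.CS.Stmts

/-!
Row LVL of project CS: one level.
-/

namespace Pool.Agent.Helper62.CS

open Classical

namespace LVL

theorem mem_Qf (n : ℕ) (q : Str) : q ∈ Qf n ↔ q.length = n := by
  constructor
  · intro h
    simp only [Qf, Finset.mem_image, Finset.mem_univ, true_and] at h
    obtain ⟨f, rfl⟩ := h
    simp
  · rintro rfl
    simp only [Qf, Finset.mem_image, Finset.mem_univ, true_and]
    exact ⟨fun i => q.get i, by simp⟩

theorem card_Qf (n : ℕ) : (Qf n).card = 2 ^ n := by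
  rw [Qf, Finset.card_image_of_injective _ List.ofFn_injective]
  simp

theorem mem_Vf (T : Lang) (n : ℕ) (v : Str) :
    v ∈ Vf T n ↔ v.length = 2 * n ∧ v.reverse ∈ T := by
  simp [Vf, mem_Qf]

theorem code_mem (T : Lang) (n : ℕ) {q v : Str} {t : ℕ} (hq : q ∈ Qf n) (hv : v ∈ Vf T n)
    (ht : t < n) : code q v t ∈ blk T n := by
  simp only [blk, Finset.mem_image, Finset.mem_product, Finset.mem_range]
  exact ⟨((q, v), t), ⟨⟨hq, hv⟩, ht⟩, rfl⟩

/-- the coordinates of level `n` -/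
noncomputable def e (T : Lang) (n : ℕ) :
    ((Qf n) × (Vf T n)) × Fin n → blk T n :=
  fun p => ⟨code p.1.1 p.1.2 p.2, code_mem T n p.1.1.2 p.1.2.2 p.2.2⟩

theorem e_bij (hC : ST_COD) (T : Lang) (n : ℕ) : Function.Bijective (e T n) := by
  constructor
  · rintro ⟨⟨⟨q, hq⟩, ⟨v, hv⟩⟩, ⟨t, ht⟩⟩ ⟨⟨⟨q', hq'⟩, ⟨v', hv'⟩⟩, ⟨t', ht'⟩⟩ h
    simp only [e, Subtype.mk.injEq] at h
    have h1 : v.length = 2 * q.length := by
      rw [((mem_Vf T n v).1 hv).1, (mem_Qf n q).1 hq]
    have h2 : v'.length = 2 * q'.length := by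
      rw [((mem_Vf T n v').1 hv').1, (mem_Qf n q').1 hq']
    obtain ⟨rfl, rfl, rfl⟩ := hC.1 q v q' v' t t' h1 h2 h
    rfl
  · rintro ⟨z, hz⟩
    simp only [blk, Finset.mem_image, Finset.mem_product, Finset.mem_range] at hz
    obtain ⟨⟨⟨q, v⟩, t⟩, ⟨⟨hq, hv⟩, ht⟩, rfl⟩ := hz
    exact ⟨((⟨q, hq⟩, ⟨v, hv⟩), ⟨t, ht⟩), rfl⟩

/-- the equivalence -/
noncomputable def eqv (hC : ST_COD) (T : Lang) (n : ℕ) :
    ((Qf n) × (Vf T n)) × Fin n ≃ blk T n := Equiv.ofBijective _ (e_bij hC T n)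

theorem card_blk (hC : ST_COD) (T : Lang) (n : ℕ) :
    (blk T n).card = n * (Fintype.card (Qf n) * Fintype.card (Vf T n)) := by
  have := Fintype.card_congr (eqv hC T n)
  rw [Fintype.card_prod, Fintype.card_prod, Fintype.card_fin, Fintype.card_coe (blk T n)] at this
  rw [← this]; ring

/-- functions on the coordinates -/
noncomputable def feqv (hC : ST_COD) (T : Lang) (n : ℕ) :
    ((Qf n) → (Vf T n) → Fin n → Bool) ≃ (blk T n → Bool) where
  toFun b' := fun z => b' ((eqv hC T n).symm z).1.1 ((eqv hC T n).symm z).1.2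
    ((eqv hC T n).symm z).2
  invFun b := fun q v t => b (eqv hC T n ((q, v), t))
  left_inv b' := by
    funext q v t
    simp
  right_inv b := by
    funext z
    simp

theorem ovr_code (hC : ST_COD) (T : Lang) (n : ℕ) (R : Str → Bool)
    (b' : (Qf n) → (Vf T n) → Fin n → Bool) (q : Qf n) (v : Vf T n) (t : Fin n) :
    ovr (blk T n) R (feqv hC T n b') (code q v t) = b' q v t := by
  have hm : code q v t ∈ blk T n := code_mem T n q.2 v.2 t.2
  have hz : (⟨code q v t, hm⟩ : blk T n) = eqv hC T n ((q, v), t) := rfl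
  simp only [ovr, hm, dif_pos, feqv, Equiv.coe_fn_mk]
  rw [hz]
  simp

theorem poly_exp (c : ℕ) : ∃ n0 : ℕ, ∀ n, n0 ≤ n →
    2 * (2 * (4 * (n ^ c + c) ^ 2 + (n ^ c + c) + 10) * (2 * (n ^ c + c) + 1)) ≤ 2 ^ n := by
  have h := tendsto_pow_const_div_const_pow_of_one_lt (3 * c) (r := (2 : ℝ)) (by norm_num)
  have hpos : (0 : ℝ) < 1 / (180 * ((c : ℝ) + 2) ^ 3) := by positivity
  have := (h.eventually (gt_mem_nhds hpos))
  obtain ⟨n1, hn1⟩ := Filter.eventually_atTop.1 this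
  refine ⟨max n1 1, fun n hn => ?_⟩
  have hn' : n1 ≤ n := le_trans (le_max_left _ _) hn
  have hn1' : 1 ≤ n := le_trans (le_max_right _ _) hn
  have h2 := hn1 n hn'
  have hnc : 1 ≤ n ^ c := Nat.one_le_pow _ _ hn1'
  set P := n ^ c + c + 1 with hP
  have hPle : P ≤ (c + 2) * n ^ c := by
    have : c ≤ c * n ^ c := Nat.le_mul_of_pos_right _ hnc
    nlinarith
  have hP1 : 1 ≤ P := by omega
  have hle : 2 * (2 * (4 * (n ^ c + c) ^ 2 + (n ^ c + c) + 10) * (2 * (n ^ c + c) + 1))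
      ≤ 180 * P ^ 3 := by
    have hk : n ^ c + c ≤ P := by omega
    have e1 : 4 * (n ^ c + c) ^ 2 + (n ^ c + c) + 10 ≤ 15 * P ^ 2 := by
      have : (n ^ c + c) ^ 2 ≤ P ^ 2 := Nat.pow_le_pow_left hk 2
      have h3 : n ^ c + c ≤ P ^ 2 := by nlinarith
      have h4 : 1 ≤ P ^ 2 := Nat.one_le_pow _ _ hP1
      nlinarith
    have e2 : 2 * (n ^ c + c) + 1 ≤ 3 * P := by omega
    calc 2 * (2 * (4 * (n ^ c + c) ^ 2 + (n ^ c + c) + 10) * (2 * (n ^ c + c) + 1))
        ≤ 2 * (2 * (15 * P ^ 2) * (3 * P)) := by gcongr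
      _ = 180 * P ^ 3 := by ring
  have hle2 : 180 * P ^ 3 ≤ 180 * ((c + 2) ^ 3 * n ^ (3 * c)) := by
    have : P ^ 3 ≤ ((c + 2) * n ^ c) ^ 3 := Nat.pow_le_pow_left hPle 3
    have e3 : ((c + 2) * n ^ c) ^ 3 = (c + 2) ^ 3 * n ^ (3 * c) := by
      rw [mul_pow, ← pow_mul, mul_comm c 3]
    rw [e3] at this
    omega
  refine hle.trans (hle2.trans ?_)
  have h5 : (n : ℝ) ^ (3 * c) / 2 ^ n < 1 / (180 * ((c : ℝ) + 2) ^ 3) := h2
  rw [div_lt_div_iff₀ (by positivity) (by positivity)] at h5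
  have h6 : ((180 * ((c + 2) ^ 3 * n ^ (3 * c)) : ℕ) : ℝ) ≤ ((2 ^ n : ℕ) : ℝ) := by
    push_cast
    nlinarith
  exact_mod_cast h6

/-- the generic step: PSH and ERR together -/
theorem core (hE : ST_ERR) (hP : ST_PSH) (Q V : Type) [Fintype Q] [Fintype V] (n kk K : ℕ)
    (hn1 : 1 ≤ n) (Fp : (Q → V → Fin n → Bool) → Prop)
    (c1 : 2 ≤ Fintype.card Q) (c2 : (Fintype.card Q : ℝ) * (1 / 2) ^ n ≤ 1)
    (c3 : 1 / 2 ≤ (Fintype.card Q : ℝ) * (1 - (1 / 2 : ℝ) ^ n) ^ Fintype.card V)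
    (c4 : (Fintype.card Q : ℝ) * (1 - (1 / 2 : ℝ) ^ n) ^ Fintype.card V ≤ 1)
    (hK : K ≤ 2 ^ kk)
    (c5 : 2 * (2 * (4 * kk ^ 2 + kk + 10) * (2 * kk + 1)) ≤ Fintype.card Q)
    (H : ∀ Z : Q → V → Fin n → Bool, (∀ q v, Z q v ≠ fun _ => true) →
      ∃ g' : Fin K → (Q → V → Bool) → Prop, (∀ i, Crt0 kk (g' i)) ∧
        ∀ ξ : Q → V → Bool, (Fp (fun q v => if ξ q v = true then (fun _ => true) else Z q v) ↔
          ((∃ i, g' i ξ) ↔ ∀ q, ∃ v, ξ q v = true))) :
    ((Finset.univ.filter (fun b : Q → V → Fin n → Bool => Fp b)).card : ℝ)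
      ≤ 31 / 32 * (2 : ℝ) ^ (n * (Fintype.card Q * Fintype.card V)) := by
  refine hP Q V n (31 / 32) Fp hn1 ?_
  intro Z hZ
  obtain ⟨g', hcrt, hAB⟩ := H Z hZ
  have hρ1 : ((1 : ℝ) / 2) ^ n ≤ 1 := pow_le_one₀ (by norm_num) (by norm_num)
  have key := hE Q V ((1 / 2 : ℝ) ^ n) kk kk (4 * kk ^ 2 + kk + 10) K g'
    (by positivity) hρ1 c1 c2 c3 c4 hK hcrt le_rfl c5
  refine le_trans (le_of_eq ?_) key
  refine Finset.sum_congr rfl fun ξ _ => ?_
  by_cases hA : Fp (fun q v => if ξ q v = true then (fun _ => true) else Z q v)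
  · rw [if_pos hA, if_pos ((hAB ξ).1 hA)]
  · rw [if_neg hA, if_neg (fun h => hA ((hAB ξ).2 h))]

end LVL

open LVL in
/-- row LVL -/
theorem st_LVL (hL : ST_LC4) (hE : ST_ERR) (hP : ST_PSH) (hC : ST_COD) : ST_LVL := by
  intro T hT s
  obtain ⟨c, hc⟩ := hL s
  obtain ⟨n0, hn0⟩ := poly_exp c
  refine ⟨max n0 1, fun n hn R => ?_⟩
  have hnn0 : n0 ≤ n := le_trans (le_max_left _ _) hn
  have hn1 : 1 ≤ n := le_trans (le_max_right _ _) hn
  obtain ⟨⟨K, g, hK, hg, hF⟩, _⟩ := hc (List.replicate n true)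
  rw [List.length_replicate] at hK hg
  set kk := n ^ c + c with hkk
  -- the predicate on blocks, opaque
  obtain ⟨Fp, hFp⟩ : ∃ Fp : ((Qf n) → (Vf T n) → Fin n → Bool) → Prop, ∀ b', Fp b' ↔
      (List.replicate n true ∈ s.F (join T (orc (ovr (blk T n) R (feqv hC T n b')))) ↔
      List.replicate n true ∈ Lset (Aset T (ovr (blk T n) R (feqv hC T n b')))) :=
    ⟨_, fun _ => Iff.rfl⟩
  have hQcard : Fintype.card (Qf n) = 2 ^ n := by rw [Fintype.card_coe, card_Qf]
  have hVcard : Fintype.card (Vf T n) = (Vf T n).card := Fintype.card_coe _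
  have main : ∀ Z : (Qf n) → (Vf T n) → Fin n → Bool, (∀ q v, Z q v ≠ fun _ => true) →
      ∃ g' : Fin K → ((Qf n) → (Vf T n) → Bool) → Prop, (∀ i, Crt0 kk (g' i)) ∧
        ∀ ξ : (Qf n) → (Vf T n) → Bool,
          (Fp (fun q v => if ξ q v = true then (fun _ => true) else Z q v) ↔
          ((∃ i, g' i ξ) ↔ ∀ q, ∃ v, ξ q v = true)) := by
    intro Z hZ
    -- the configuration
    obtain ⟨X, hX⟩ : ∃ X : ((Qf n) → (Vf T n) → Bool) → ((Qf n) → (Vf T n) → Fin n → Bool),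
        ∀ ξ, X ξ = fun q v => if ξ q v = true then (fun _ => true) else Z q v :=
      ⟨_, fun _ => rfl⟩
    have hX1 : ∀ ξ q v t, ξ q v = true → X ξ q v t = true := by
      intro ξ q v t h
      rw [hX]; simp [h]
    have hX2 : ∀ ξ q v, ξ q v ≠ true → X ξ q v = Z q v := by
      intro ξ q v h
      rw [hX]; simp [h]
    have hX3 : ∀ ξ ξ' q v, ξ' q v = ξ q v → X ξ' q v = X ξ q v := by
      intro ξ ξ' q v h
      rw [hX, hX]; simp only [h]
    -- the oracle
    obtain ⟨RX, hRX⟩ : ∃ RX : ((Qf n) → (Vf T n) → Bool) → (Str → Bool),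
        ∀ ξ, RX ξ = ovr (blk T n) R (feqv hC T n (X ξ)) := ⟨_, fun _ => rfl⟩
    have hRc : ∀ ξ (q : Qf n) (v : Vf T n) (t : Fin n), RX ξ (code q v t) = X ξ q v t := by
      intro ξ q v t
      rw [hRX]; exact ovr_code hC T n R (X ξ) q v t
    have hRo : ∀ ξ y, y ∉ blk T n → RX ξ y = R y := by
      intro ξ y hy
      rw [hRX]; simp [ovr, hy]
    -- the language on this level
    have hLs : ∀ ξ : (Qf n) → (Vf T n) → Bool,
        List.replicate n true ∈ Lset (Aset T (RX ξ)) ↔ ∀ q, ∃ v, ξ q v = true := by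
      intro ξ
      have hhit : ∀ (q : Qf n) (v : Vf T n), (∀ t < n, RX ξ (code q v t) = true) ↔
          ξ q v = true := by
        intro q v
        constructor
        · intro h
          by_contra hne
          apply hZ q v
          funext t
          have := h t t.2
          rw [hRc, hX2 ξ q v hne] at this
          exact this
        · intro h t ht
          have := hRc ξ q v ⟨t, ht⟩
          rw [this]
          exact hX1 ξ q v _ h
      constructor
      · intro h q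
        have hq := h q.1 (by rw [(mem_Qf n q.1).1 q.2, List.length_replicate])
        obtain ⟨v, hv, hvT, hall⟩ := hq
        rw [(mem_Qf n q.1).1 q.2] at hv hall
        have hvm : v ∈ Vf T n := (mem_Vf T n v).2 ⟨hv, hvT⟩
        exact ⟨⟨v, hvm⟩, (hhit q ⟨v, hvm⟩).1 hall⟩
      · intro h q hq
        rw [List.length_replicate] at hq
        have hqm : q ∈ Qf n := (mem_Qf n q).2 hq
        obtain ⟨v, hv⟩ := h ⟨q, hqm⟩
        obtain ⟨hv1, hv2⟩ := (mem_Vf T n v.1).1 v.2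
        refine ⟨v.1, by rw [hv1, hq], hv2, ?_⟩
        rw [hq]
        exact (hhit ⟨q, hqm⟩ v).2 hv
    -- the predicates
    obtain ⟨g', hg'⟩ : ∃ g' : Fin K → ((Qf n) → (Vf T n) → Bool) → Prop,
        ∀ i ξ, g' i ξ ↔ g i (join T (orc (RX ξ))) := ⟨_, fun _ _ => Iff.rfl⟩
    have hcrt : ∀ i, Crt0 kk (g' i) := by
      intro i ξ hi
      rw [hg'] at hi
      obtain ⟨F, hFc, hFp'⟩ := hg i _ hi
      obtain ⟨φ, hφ⟩ : ∃ φ : Str → Option ((Qf n) × (Vf T n)),
          ∀ y (h : y ∈ blk T n), φ (true :: y) = some ((eqv hC T n).symm ⟨y, h⟩).1 := by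
        refine ⟨fun z =>
          match z with
          | true :: y => if h : y ∈ blk T n then some ((eqv hC T n).symm ⟨y, h⟩).1 else none
          | _ => none, ?_⟩
        intro y h
        simp [h]
      refine ⟨(F.image φ).eraseNone, ?_, ?_⟩
      · calc ((F.image φ).eraseNone).card ≤ (F.image φ).card := Finset.card_eraseNone_le _
          _ ≤ F.card := Finset.card_image_le
          _ ≤ kk := hFc
      · intro ξ' hξ'
        rw [hg']
        apply hFp'
        intro z hz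
        rcases z with _ | ⟨b, y⟩
        · simp [join]
        · cases b
          · simp [join]
          · have hval : RX ξ y = RX ξ' y := by
              by_cases hy : y ∈ blk T n
              · obtain ⟨p, hp⟩ : ∃ p, p = (eqv hC T n).symm ⟨y, hy⟩ := ⟨_, rfl⟩
                have hyc : y = code p.1.1 p.1.2 p.2 := by
                  have : eqv hC T n p = ⟨y, hy⟩ := by rw [hp]; simp
                  exact (congrArg Subtype.val this).symm
                have hmem : p.1 ∈ (F.image φ).eraseNone := by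
                  rw [Finset.mem_eraseNone, Finset.mem_image]
                  exact ⟨true :: y, hz, by rw [hφ y hy, hp]⟩
                have hξ := hξ' _ hmem
                rw [hyc, hRc, hRc, hX3 ξ ξ' _ _ hξ]
              · rw [hRo _ _ hy, hRo _ _ hy]
            simp only [join, orc, Set.mem_ofPred_eq]
            constructor
            · rintro ⟨y', ⟨h, _⟩ | ⟨h, h'⟩⟩
              · simp at h
              · simp at h
                subst h
                exact ⟨y, Or.inr ⟨rfl, by rw [← hval]; exact h'⟩⟩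
            · rintro ⟨y', ⟨h, _⟩ | ⟨h, h'⟩⟩
              · simp at h
              · simp at h
                subst h
                exact ⟨y, Or.inr ⟨rfl, by rw [hval]; exact h'⟩⟩
    refine ⟨g', hcrt, fun ξ => ?_⟩
    rw [← hX ξ, hFp, ← hRX ξ, hLs ξ, hF]
    have : (∃ i, g' i ξ) ↔ ∃ i, g i (join T (orc (RX ξ))) :=
      exists_congr fun i => hg' i ξ
    rw [this]
  obtain ⟨hg1, hg2⟩ := hT n hn1
  have c1 : 2 ≤ Fintype.card (Qf n) := by
    rw [hQcard]
    calc 2 = 2 ^ 1 := by norm_num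
      _ ≤ 2 ^ n := Nat.pow_le_pow_right (by norm_num) hn1
  have c2 : (Fintype.card (Qf n) : ℝ) * (1 / 2) ^ n ≤ 1 := by
    rw [hQcard]
    push_cast
    rw [← mul_pow]
    norm_num
  have c3 : 1 / 2 ≤ (Fintype.card (Qf n) : ℝ) *
      (1 - (1 / 2 : ℝ) ^ n) ^ Fintype.card (Vf T n) := by
    rw [hQcard, hVcard]
    push_cast
    exact hg1
  have c4 : (Fintype.card (Qf n) : ℝ) *
      (1 - (1 / 2 : ℝ) ^ n) ^ Fintype.card (Vf T n) ≤ 1 := by
    rw [hQcard, hVcard]
    push_cast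
    exact hg2
  have c5 : 2 * (2 * (4 * kk ^ 2 + kk + 10) * (2 * kk + 1)) ≤ Fintype.card (Qf n) := by
    rw [hQcard]
    exact hn0 n hnn0
  have key2 := core hE hP (Qf n) (Vf T n) n kk K hn1 Fp c1 c2 c3 c4 hK c5 main
  refine le_trans (le_of_eq ?_) (key2.trans (le_of_eq ?_))
  · congr 1
    symm
    refine Finset.card_bij (fun b' _ => feqv hC T n b') ?_ ?_ ?_
    · intro b' hb'
      rw [Finset.mem_filter] at hb' ⊢
      exact ⟨@Finset.mem_univ _ (_) _, (hFp b').1 hb'.2⟩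
    · intro b1 _ b2 _ h
      exact (feqv hC T n).injective h
    · intro b hb
      rw [Finset.mem_filter] at hb
      refine ⟨(feqv hC T n).symm b, ?_, by simp⟩
      rw [Finset.mem_filter]
      refine ⟨@Finset.mem_univ _ (_) _, (hFp _).2 ?_⟩
      rw [Equiv.apply_symm_apply]
      exact hb.2
  · rw [card_blk hC T n]

end Pool.Agent.Helper62.CS
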