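import Pool.Agent.Helper62.CS.Stmts2
import Pool.Agent.Helper62.CS.LVL

/-!
Row LVR of project CS: one level, for the oracle `R` alone.
-/

namespace Pool.Agent.Helper62.CS

open Classical

open LVL in
/-- row LVR -/
theorem st_LVR (hL : ST_LC4) (hE : ST_ERR) (hP : ST_PSH) (hC : ST_COD) : ST_LVR := by
  intro T hT s
  obtain ⟨c, hc⟩ := hL s
  obtain ⟨n0, hn0⟩ := poly_exp c
  refine ⟨max n0 1, fun n hn R => ?_⟩
  have hnn0 : n0 ≤ n := le_trans (le_max_left _ _) hn
  have hn1 : 1 ≤ n := le_trans (le_max_right _ _) hn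
  obtain ⟨⟨K, g, hK, hg, hF⟩, _⟩ := hc (List.replicate n true)
  rw [List.length_replicate] at hK hg
  set kk := n ^ c + c with hkk
  -- the predicate on blocks, opaque
  obtain ⟨Fp, hFp⟩ : ∃ Fp : ((Qf n) → (Vf T n) → Fin n → Bool) → Prop, ∀ b', Fp b' ↔
      (List.replicate n true ∈ s.F (orc (ovr (blk T n) R (feqv hC T n b'))) ↔
      List.replicate n true ∈ Lset (Aset T (ovr (blk T n) R (feqv hC T n b')))) :=
    ⟨_, fun _ => Iff.rfl⟩
  have hQcard : Fintype.card (Qf n) = 2 ^ n := by rw [Fintype.card_coe, card_Qf]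
  have hVcard : Fintype.card (Vf T n) = (Vf T n).card := Fintype.card_coe _
  have main : ∀ Z : (Qf n) → (Vf T n) → Fin n → Bool, (∀ q v, Z q v ≠ fun _ => true) →
      ∃ g' : Fin K → ((Qf n) → (Vf T n) → Bool) → Prop, (∀ i, Crt0 kk (g' i)) ∧
        ∀ ξ : (Qf n) → (Vf T n) → Bool,
          (Fp (fun q v => if ξ q v = true then (fun _ => true) else Z q v) ↔
          ((∃ i, g' i ξ) ↔ ∀ q, ∃ v, ξ q v = true)) := by
    intro Z hZ
    -- the configuration
    obtain ⟨X, hX⟩ : ∃ X : ((Qf n) → (Vf T n) → Bool) → ((Qf n) → (Vf T n) → Fin n → Bool),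
        ∀ ξ, X ξ = fun q v => if ξ q v = true then (fun _ => true) else Z q v :=
      ⟨_, fun _ => rfl⟩
    have hX1 : ∀ ξ q v t, ξ q v = true → X ξ q v t = true := by
      intro ξ q v t h
      rw [hX]; simp [h]
    have hX2 : ∀ ξ q v, ξ q v ≠ true → X ξ q v = Z q v := by
      intro ξ q v h
      rw [hX]; simp [h]
    have hX3 : ∀ ξ ξ' q v, ξ' q v = ξ q v → X ξ' q v = X ξ q v := by
      intro ξ ξ' q v h
      rw [hX, hX]; simp only [h]
    -- the oracle
    obtain ⟨RX, hRX⟩ : ∃ RX : ((Qf n) → (Vf T n) → Bool) → (Str → Bool),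
        ∀ ξ, RX ξ = ovr (blk T n) R (feqv hC T n (X ξ)) := ⟨_, fun _ => rfl⟩
    have hRc : ∀ ξ (q : Qf n) (v : Vf T n) (t : Fin n), RX ξ (code q v t) = X ξ q v t := by
      intro ξ q v t
      rw [hRX]; exact ovr_code hC T n R (X ξ) q v t
    have hRo : ∀ ξ y, y ∉ blk T n → RX ξ y = R y := by
      intro ξ y hy
      rw [hRX]; simp [ovr, hy]
    -- the language on this level
    have hLs : ∀ ξ : (Qf n) → (Vf T n) → Bool,
        List.replicate n true ∈ Lset (Aset T (RX ξ)) ↔ ∀ q, ∃ v, ξ q v = true := by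
      intro ξ
      have hhit : ∀ (q : Qf n) (v : Vf T n), (∀ t < n, RX ξ (code q v t) = true) ↔
          ξ q v = true := by
        intro q v
        constructor
        · intro h
          by_contra hne
          apply hZ q v
          funext t
          have := h t t.2
          rw [hRc, hX2 ξ q v hne] at this
          exact this
        · intro h t ht
          have := hRc ξ q v ⟨t, ht⟩
          rw [this]
          exact hX1 ξ q v _ h
      constructor
      · intro h q
        have hq := h q.1 (by rw [(mem_Qf n q.1).1 q.2, List.length_replicate])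
        obtain ⟨v, hv, hvT, hall⟩ := hq
        rw [(mem_Qf n q.1).1 q.2] at hv hall
        have hvm : v ∈ Vf T n := (mem_Vf T n v).2 ⟨hv, hvT⟩
        exact ⟨⟨v, hvm⟩, (hhit q ⟨v, hvm⟩).1 hall⟩
      · intro h q hq
        rw [List.length_replicate] at hq
        have hqm : q ∈ Qf n := (mem_Qf n q).2 hq
        obtain ⟨v, hv⟩ := h ⟨q, hqm⟩
        obtain ⟨hv1, hv2⟩ := (mem_Vf T n v.1).1 v.2
        refine ⟨v.1, by rw [hv1, hq], hv2, ?_⟩
        rw [hq]
        exact (hhit ⟨q, hqm⟩ v).2 hv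
    -- the predicates
    obtain ⟨g', hg'⟩ : ∃ g' : Fin K → ((Qf n) → (Vf T n) → Bool) → Prop,
        ∀ i ξ, g' i ξ ↔ g i (orc (RX ξ)) := ⟨_, fun _ _ => Iff.rfl⟩
    have hcrt : ∀ i, Crt0 kk (g' i) := by
      intro i ξ hi
      rw [hg'] at hi
      obtain ⟨F, hFc, hFp'⟩ := hg i _ hi
      obtain ⟨φ, hφ⟩ : ∃ φ : Str → Option ((Qf n) × (Vf T n)),
          ∀ y (h : y ∈ blk T n), φ y = some ((eqv hC T n).symm ⟨y, h⟩).1 := by
        refine ⟨fun y => if h : y ∈ blk T n then some ((eqv hC T n).symm ⟨y, h⟩).1 else none, ?_⟩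
        intro y h
        simp [h]
      refine ⟨(F.image φ).eraseNone, ?_, ?_⟩
      · calc ((F.image φ).eraseNone).card ≤ (F.image φ).card := Finset.card_eraseNone_le _
          _ ≤ F.card := Finset.card_image_le
          _ ≤ kk := hFc
      · intro ξ' hξ'
        rw [hg']
        apply hFp'
        intro y hz
        have hval : RX ξ y = RX ξ' y := by
          by_cases hy : y ∈ blk T n
          · obtain ⟨p, hp⟩ : ∃ p, p = (eqv hC T n).symm ⟨y, hy⟩ := ⟨_, rfl⟩
            have hyc : y = code p.1.1 p.1.2 p.2 := by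
              have : eqv hC T n p = ⟨y, hy⟩ := by rw [hp]; simp
              exact (congrArg Subtype.val this).symm
            have hmem : p.1 ∈ (F.image φ).eraseNone := by
              rw [Finset.mem_eraseNone, Finset.mem_image]
              exact ⟨y, hz, by rw [hφ y hy, hp]⟩
            have hξ := hξ' _ hmem
            rw [hyc, hRc, hRc, hX3 ξ ξ' _ _ hξ]
          · rw [hRo _ _ hy, hRo _ _ hy]
        simp only [orc, Set.mem_ofPred_eq]
        rw [hval]
    refine ⟨g', hcrt, fun ξ => ?_⟩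
    rw [← hX ξ, hFp, ← hRX ξ, hLs ξ, hF]
    have : (∃ i, g' i ξ) ↔ ∃ i, g i (orc (RX ξ)) :=
      exists_congr fun i => hg' i ξ
    rw [this]
  obtain ⟨hg1, hg2⟩ := hT n hn1
  have c1 : 2 ≤ Fintype.card (Qf n) := by
    rw [hQcard]
    calc 2 = 2 ^ 1 := by norm_num
      _ ≤ 2 ^ n := Nat.pow_le_pow_right (by norm_num) hn1
  have c2 : (Fintype.card (Qf n) : ℝ) * (1 / 2) ^ n ≤ 1 := by
    rw [hQcard]
    push_cast
    rw [← mul_pow]
    norm_num
  have c3 : 1 / 2 ≤ (Fintype.card (Qf n) : ℝ) *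
      (1 - (1 / 2 : ℝ) ^ n) ^ Fintype.card (Vf T n) := by
    rw [hQcard, hVcard]
    push_cast
    exact hg1
  have c4 : (Fintype.card (Qf n) : ℝ) *
      (1 - (1 / 2 : ℝ) ^ n) ^ Fintype.card (Vf T n) ≤ 1 := by
    rw [hQcard, hVcard]
    push_cast
    exact hg2
  have c5 : 2 * (2 * (4 * kk ^ 2 + kk + 10) * (2 * kk + 1)) ≤ Fintype.card (Qf n) := by
    rw [hQcard]
    exact hn0 n hnn0
  have key2 := core hE hP (Qf n) (Vf T n) n kk K hn1 Fp c1 c2 c3 c4 hK c5 main
  refine le_trans (le_of_eq ?_) (key2.trans (le_of_eq ?_))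
  · congr 1
    symm
    refine Finset.card_bij (fun b' _ => feqv hC T n b') ?_ ?_ ?_
    · intro b' hb'
      rw [Finset.mem_filter] at hb' ⊢
      exact ⟨@Finset.mem_univ _ (_) _, (hFp b').1 hb'.2⟩
    · intro b1 _ b2 _ h
      exact (feqv hC T n).injective h
    · intro b hb
      rw [Finset.mem_filter] at hb
      refine ⟨(feqv hC T n).symm b, ?_, by simp⟩
      rw [Finset.mem_filter]
      refine ⟨@Finset.mem_univ _ (_) _, (hFp _).2 ?_⟩
      rw [Equiv.apply_symm_apply]
      exact hb.2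
  · rw [card_blk hC T n]

end Pool.Agent.Helper62.CS
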