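import Pool.Agent.Helper62.CS.Stmts2
import Pool.Agent.Helper80.CS.NulRow

/-!
Row NLR of project CS: almost surely a given triple of machines is wrong somewhere, for the
oracle `R` alone.
-/

namespace Pool.Agent.Helper62.CS

open Classical MeasureTheory Finset

namespace NLR

open Pool.Agent.Helper80.CS (mem_Qf code_mem_blk Aset_dep Lset_dep shorts mem_shorts)

/-- The machine is right on the word `1^n`. -/
def Wr (T : Lang) (s : Tri) (n : ℕ) (R : Str → Bool) : Prop :=
  (List.replicate n true ∈ s.F (orc R) ↔ List.replicate n true ∈ Lset (Aset T R))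

theorem Wr_dep (hLC4 : ST_LC4) (T : Lang) (s : Tri) (n : ℕ) :
    ∃ D : Finset Str, Dep (D : Set Str) (Wr T s n) := by
  obtain ⟨c, hc⟩ := hLC4 s
  obtain ⟨_, l, hl⟩ := hc (List.replicate n true)
  refine ⟨shorts l ∪ blk T n, ?_⟩
  intro R R' h
  have h1 : List.replicate n true ∈ s.F (orc R) ↔
      List.replicate n true ∈ s.F (orc R') := by
    apply hl
    intro z hz
    show R z = true ↔ R' z = true
    rw [h z (by rw [Finset.mem_coe, Finset.mem_union]; exact Or.inl (mem_shorts.mpr hz))]
  have h2 : List.replicate n true ∈ Lset (Aset T R) ↔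
      List.replicate n true ∈ Lset (Aset T R') := by
    apply Lset_dep
    intro x hx
    apply h
    rw [Finset.mem_coe, Finset.mem_union]
    exact Or.inr hx
  unfold Wr
  rw [h1, h2]

theorem st_NLR (hLVL : ST_LVR) (hCYL : ST_CYL) (hLC4 : ST_LC4) (hCOD : ST_COD) : ST_NLR := by
  intro T hT s
  obtain ⟨n0, hn0⟩ := hLVL T hT s
  have step : ∀ k : ℕ, ∃ (D : Finset Str) (G : (Str → Bool) → Prop), Dep (D : Set Str) G ∧
      (∀ R, (∀ n, Wr T s n R) → G R) ∧
      randomOracle {R | G R} ≤ (ENNReal.ofReal (31 / 32)) ^ k := by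
    intro k
    induction k with
    | zero =>
      refine ⟨∅, fun _ => True, fun R R' _ => Iff.rfl, fun _ _ => trivial, ?_⟩
      rw [pow_zero]
      have : IsProbabilityMeasure coin := by unfold coin; infer_instance
      have : IsProbabilityMeasure randomOracle := by unfold randomOracle; infer_instance
      exact prob_le_one
    | succ k ih =>
      obtain ⟨D, G, hD, hG, hm⟩ := ih
      obtain ⟨N, hN⟩ : ∃ N : ℕ, ∀ x ∈ D, x.length ≤ N :=
        ⟨D.sup List.length, fun x hx => Finset.le_sup (f := List.length) hx⟩
      obtain ⟨n, hn⟩ : ∃ n, n = max n0 N := ⟨_, rfl⟩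
      have hn1 : n0 ≤ n := by rw [hn]; exact le_max_left _ _
      have hn2 : N ≤ n := by rw [hn]; exact le_max_right _ _
      obtain ⟨D', hD'⟩ := Wr_dep hLC4 T s n
      have hGD : Dep ((D ∪ D' : Finset Str) : Set Str) G := by
        intro R R' h
        exact hD R R' (fun x hx => h x (by
          rw [Finset.mem_coe, Finset.mem_union]; exact Or.inl hx))
      have hWD : Dep ((D ∪ D' : Finset Str) : Set Str) (Wr T s n) := by
        intro R R' h
        exact hD' R R' (fun x hx => h x (by
          rw [Finset.mem_coe, Finset.mem_union]; exact Or.inr hx))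
      have hGb : Dep ((blk T n : Set Str)ᶜ) G := by
        intro R R' h
        apply hD R R'
        intro x hx
        apply h
        intro hxb
        have hxb' : x ∈ blk T n := hxb
        rw [blk, Finset.mem_image] at hxb'
        obtain ⟨⟨⟨q, v⟩, t⟩, he, rfl⟩ := hxb'
        rw [Finset.mem_product, Finset.mem_product, Vf, Finset.mem_filter] at he
        have hq : q.length = n := mem_Qf.mp he.1.1
        have hv : v.length = 2 * n := mem_Qf.mp he.1.2.1
        have h1 := hCOD.2 q v t (by rw [hv, hq])
        have h2 := hN _ hx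
        simp only at h2
        omega
      refine ⟨D ∪ D', fun R => G R ∧ Wr T s n R, ?_, ?_, ?_⟩
      · intro R R' h
        exact and_congr (hGD R R' h) (hWD R R' h)
      · intro R hR
        exact ⟨hG R hR, hR n⟩
      · have h1 := hCYL (D ∪ D') (blk T n) G (Wr T s n) (31 / 32) (by norm_num) hGD hWD hGb (by
          intro R
          refine le_trans (le_of_eq ?_) (hn0 n hn1 R)
          congr 1
          rw [Finset.card_filter, Finset.card_filter]
          apply Finset.sum_congr rfl
          intro b _
          unfold Wr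
          by_cases h : (List.replicate n true ∈ s.F (orc (ovr (blk T n) R b)) ↔
            List.replicate n true ∈ Lset (Aset T (ovr (blk T n) R b)))
          · rw [if_pos h, if_pos h]
          · rw [if_neg h, if_neg h])
        calc randomOracle {R | G R ∧ Wr T s n R} ≤
            ENNReal.ofReal (31 / 32) * randomOracle {R | G R} := h1
          _ ≤ ENNReal.ofReal (31 / 32) * (ENNReal.ofReal (31 / 32)) ^ k := by gcongr
          _ = (ENNReal.ofReal (31 / 32)) ^ (k + 1) := by rw [pow_succ]; ring
  rw [ae_iff]
  have hle : ∀ k : ℕ, randomOracle {R | ¬ (s.F (orc R) ≠ Lset (Aset T R))} ≤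
      (ENNReal.ofReal (31 / 32)) ^ k := by
    intro k
    obtain ⟨D, G, _, hG, hm⟩ := step k
    refine le_trans (measure_mono ?_) hm
    intro R hR
    have hR' : s.F (orc R) = Lset (Aset T R) := not_not.mp hR
    apply hG
    intro n
    unfold Wr
    rw [hR']
  have hlim : Filter.Tendsto (fun k : ℕ => (ENNReal.ofReal (31 / 32)) ^ k) Filter.atTop (nhds 0) := by
    apply ENNReal.tendsto_pow_atTop_nhds_zero_of_lt_one
    rw [ENNReal.ofReal_lt_one]
    norm_num
  exact le_antisymm (ge_of_tendsto' hlim hle) zero_le

end NLR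

end Pool.Agent.Helper62.CS
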