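import Pool.Agent.Helper62.CS.Defs

/-!
Rows of project CS (MP_2bf3f9_lc). Every row is a proposition ST_X; the typist proves st_X.
-/

namespace Pool.Agent.Helper62.CS

open Classical MeasureTheory

/-! ### The sets -/

/-- interleaving of `q` and `v` (two symbols of `v` for each symbol of `q`), accumulated on a stack -/
def wenc : Str → Str → Str → Str
  | bq :: q, b1 :: b2 :: v, acc => wenc q v (b2 :: b1 :: bq :: acc)
  | _, _, acc => acc

/-- the words of the random oracle that are used for the row `q` and the column `v` -/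
def code (q v : Str) (t : ℕ) : Str := List.replicate t true ++ false :: wenc q v []

/-- the set `A`: the rows that are hit -/
def Aset (T : Lang) (R : Str → Bool) : Lang :=
  {q | ∃ v : Str, v.length = 2 * q.length ∧ v.reverse ∈ T ∧
    ∀ t < q.length, R (code q v t) = true}

/-- the separating language: all words of the same length are in `A` -/
def Lset (A : Lang) : Lang := {x | ∀ q : Str, q.length = x.length → q ∈ A}

/-- the program for `A` -/
def progA : Prog :=
  [ Instr.pop 0 14 1 2,        -- 0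
    Instr.push 2 false 3,      -- 1
    Instr.push 2 true 3,       -- 2
    Instr.push 3 true 4,       -- 3
    Instr.pop 1 23 5 7,        -- 4
    Instr.push 2 false 6,      -- 5
    Instr.push 4 false 9,      -- 6
    Instr.push 2 true 8,       -- 7
    Instr.push 4 true 9,       -- 8
    Instr.pop 1 23 10 12,      -- 9
    Instr.push 2 false 11,     -- 10
    Instr.push 4 false 0,      -- 11
    Instr.push 2 true 13,      -- 12
    Instr.push 4 true 0,       -- 13
    Instr.pop 1 15 23 23,      -- 14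
    Instr.push 4 false 16,     -- 15
    Instr.query 4 23 17,       -- 16
    Instr.push 2 false 18,     -- 17
    Instr.push 2 true 19,      -- 18
    Instr.pop 3 22 23 20,      -- 19
    Instr.query 2 23 21,       -- 20
    Instr.push 2 true 19,      -- 21
    Instr.accept,              -- 22
    Instr.reject ]             -- 23

/-- row UA: `A` is in `NP`. -/
def ST_UA : Prop := ∀ (T : Lang) (R : Str → Bool), Aset T R ∈ NPClass (join T (orc R))

/-- row UB: `Lset A` is in the second level relative to `A`. -/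
def ST_UB : Prop := ∀ A O : Lang, Lset A ∈ SigmaP 2 (join A O)

/-! ### Machines with three levels of oracles -/

/-- three programs with clocks -/
structure Tri where
  P1 : Prog
  c1 : ℕ
  P2 : Prog
  c2 : ℕ
  P3 : Prog
  c3 : ℕ

/-- the language in `P(O)` -/
def Tri.C (s : Tri) (O : Lang) : Lang := {u | Accepts s.P1 O [u] (u.length ^ s.c1 + s.c1)}

/-- the language in `NP(P(O))` -/
def Tri.B (s : Tri) (O : Lang) : Lang :=
  {z | ∃ w : Str, w.length ≤ z.length ^ s.c2 + s.c2 ∧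
    Accepts s.P2 (s.C O) [z, w] (z.length ^ s.c2 + s.c2)}

/-- the language in `NP(NP(P(O)))` -/
def Tri.F (s : Tri) (O : Lang) : Lang :=
  {x | ∃ y : Str, y.length ≤ x.length ^ s.c3 + s.c3 ∧
    Accepts s.P3 (s.B O) [x, y] (x.length ^ s.c3 + s.c3)}

/-- row TRI: the second level is the set of the languages `s.F O`; there are countably many
triples. -/
def ST_TRI : Prop :=
  (∀ O L : Lang, L ∈ SigmaP 2 O ↔ ∃ s : Tri, L = s.F O) ∧ Countable Tri

/-- a predicate of the oracle depends on at most `k` bits (which may depend on the oracle) -/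
def Loc (k : ℕ) (Φ : Lang → Prop) : Prop :=
  ∀ O, ∃ F : Finset Str, F.card ≤ k ∧ ∀ O', (∀ z ∈ F, (z ∈ O ↔ z ∈ O')) → (Φ O ↔ Φ O')

/-- a false value has a certificate of at most `k` bits -/
def Crt (k : ℕ) (g : Lang → Prop) : Prop :=
  ∀ O, ¬ g O → ∃ F : Finset Str, F.card ≤ k ∧ ∀ O', (∀ z ∈ F, (z ∈ O ↔ z ∈ O')) → ¬ g O'

/-- row LC1: runs are local. -/
def ST_LC1 : Prop := ∀ (P : Prog) (inp : List Str) (T : ℕ), Loc T (fun O => Accepts P O inp T)

/-- row LC2: composition. If all words of length at most `l + T` are decided by `k`-local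
predicates, then a run with this oracle is `T * k`-local. (All queries of the run have length at
most `l + T`.) -/
def ST_LC2 : Prop := ∀ (P : Prog) (inp : List Str) (T l k : ℕ) (C : Lang → Lang),
  (∀ x ∈ inp, x.length ≤ l) →
  (∀ u : Str, u.length ≤ l + T → Loc k (fun O => u ∈ C O)) →
  Loc (T * k) (fun O => Accepts P (C O) inp T)

/-- row LC3: a run with a nondeterministic oracle is a disjunction of few predicates whose false
values have small certificates. Here `Ψ z w` says that `w` is a witness for `z`. -/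
def ST_LC3 : Prop := ∀ (P : Prog) (inp : List Str) (T l m k : ℕ) (Ψ : Str → Str → Lang → Prop)
  (B : Lang → Lang),
  (∀ x ∈ inp, x.length ≤ l) →
  (∀ z : Str, z.length ≤ l + T → ∀ O : Lang, (z ∈ B O ↔ ∃ w : Str, w.length ≤ m ∧ Ψ z w O)) →
  (∀ z w : Str, z.length ≤ l + T → w.length ≤ m → Loc k (Ψ z w)) →
  ∃ (K : ℕ) (g : Fin K → Lang → Prop), K ≤ 2 ^ (T * (m + 2)) ∧ (∀ i, Crt k (g i)) ∧
    ∀ O : Lang, (Accepts P (B O) inp T ↔ ∃ i, g i O)

/-- row LC4: the form of the predicate `x ∈ s.F O`, with polynomial bounds. -/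
def ST_LC4 : Prop := ∀ s : Tri, ∃ c : ℕ, ∀ x : Str,
  (∃ (K : ℕ) (g : Fin K → Lang → Prop), K ≤ 2 ^ (x.length ^ c + c) ∧
    (∀ i, Crt (x.length ^ c + c) (g i)) ∧ ∀ O : Lang, (x ∈ s.F O ↔ ∃ i, g i O)) ∧
  (∃ l : ℕ, ∀ O O' : Lang, (∀ z : Str, z.length ≤ l → (z ∈ O ↔ z ∈ O')) → (x ∈ s.F O ↔ x ∈ s.F O'))

/-! ### The combinatorial core -/

section core

/-- weight of a configuration, every entry is `true` with probability `ρ` -/
noncomputable def wt {Q V : Type} [Fintype Q] [Fintype V] (ρ : ℝ) (ξ : Q → V → Bool) : ℝ :=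
  ∏ q, ∏ v, (if ξ q v = true then ρ else 1 - ρ)

/-- row `q` is cleared -/
noncomputable def clr {Q V : Type} (ξ : Q → V → Bool) (q : Q) : Q → V → Bool :=
  fun q' v => if q' = q then false else ξ q' v

/-- false values have certificates of size at most `k` -/
def Crt0 {Q V : Type} (k : ℕ) (g : (Q → V → Bool) → Prop) : Prop :=
  ∀ ξ, ¬ g ξ → ∃ F : Finset (Q × V), F.card ≤ k ∧
    ∀ ξ' : Q → V → Bool, (∀ e ∈ F, ξ' e.1 e.2 = ξ e.1 e.2) → ¬ g ξ'

/-- the rows whose clearing falsifies `g` -/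
noncomputable def crit {Q V : Type} [Fintype Q] (g : (Q → V → Bool) → Prop) (ξ : Q → V → Bool) :
    Finset Q := Finset.univ.filter (fun q => ¬ g (clr ξ q))

end core

/-- row IND: independent sets in digraphs of small out-degree. -/
def ST_IND : Prop := ∀ (Q : Type) [Fintype Q] (C : Finset Q) (N : Q → Finset Q) (k r : ℕ),
  (∀ q ∈ C, (N q).card ≤ k) → r * (2 * k + 1) ≤ C.card →
  ∃ I : Finset Q, I ⊆ C ∧ I.card = r ∧ ∀ q ∈ I, ∀ q' ∈ I, q ≠ q' → q' ∉ N q

/-- row COR: a fixed set `I` of rows with certificates that do not touch the other rows of `I`. -/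
def ST_COR : Prop := ∀ (Q V : Type) [Fintype Q] [Fintype V] (ρ : ℝ) (k : ℕ)
  (g : (Q → V → Bool) → Prop) (I : Finset Q), 0 ≤ ρ → ρ ≤ 1 →
  (∑ ξ : Q → V → Bool, if (g ξ ∧ ∀ q ∈ I, ∃ F : Finset (Q × V), F.card ≤ k ∧
      (∀ e ∈ F, e.1 ∈ I → e.1 = q) ∧
      ∀ ξ' : Q → V → Bool, (∀ e ∈ F, ξ' e.1 e.2 = clr ξ q e.1 e.2) → ¬ g ξ')
    then wt ρ ξ else 0) ≤ ((k : ℝ) * ρ) ^ I.card

/-- row TAL: many critical rows are unlikely (from IND, COR and the union bound over `I`). -/
def ST_TAL : Prop := ∀ (Q V : Type) [Fintype Q] [Fintype V] (ρ : ℝ) (k m : ℕ)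
  (g : (Q → V → Bool) → Prop), 0 ≤ ρ → ρ ≤ 1 → (Fintype.card Q : ℝ) * ρ ≤ 1 → Crt0 k g →
  4 * k ^ 2 ≤ m →
  (∑ ξ : Q → V → Bool, if (g ξ ∧ 2 * m * (2 * k + 1) ≤ (crit g ξ).card) then wt ρ ξ else 0)
    ≤ (1 / 4 : ℝ) ^ m

/-- row EMP: the weight of emptied configurations. -/
def ST_EMP : Prop := ∀ (Q V : Type) [Fintype Q] [Fintype V] (ρ : ℝ)
  (f : (Q → V → Bool) → Prop), 0 ≤ ρ → ρ ≤ 1 →
  (1 - ρ) ^ Fintype.card V *
    (∑ ξ : Q → V → Bool, if (∀ q, ∃ v, ξ q v = true) then
      wt ρ ξ * ((Finset.univ.filter (fun q => f (clr ξ q))).card : ℝ) else 0)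
  ≤ ∑ ξ : Q → V → Bool, if (f ξ ∧ ¬ ∀ q, ∃ v, ξ q v = true) then wt ρ ξ else 0

/-- row FUL: the total weight, and the weight of the configurations without empty row. -/
def ST_FUL : Prop := ∀ (Q V : Type) [Fintype Q] [Fintype V] (ρ : ℝ), 0 ≤ ρ → ρ ≤ 1 →
  (∑ ξ : Q → V → Bool, wt ρ ξ) = 1 ∧
  (∑ ξ : Q → V → Bool, if (∀ q, ∃ v, ξ q v = true) then wt ρ ξ else 0)
    = (1 - (1 - ρ) ^ Fintype.card V) ^ Fintype.card Q

/-- row ERR: a disjunction of few predicates with small certificates does not recognize the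
configurations without empty row. -/
def ST_ERR : Prop := ∀ (Q V : Type) [Fintype Q] [Fintype V] (ρ : ℝ) (k s m K : ℕ)
  (g : Fin K → (Q → V → Bool) → Prop), 0 ≤ ρ → ρ ≤ 1 → 2 ≤ Fintype.card Q →
  (Fintype.card Q : ℝ) * ρ ≤ 1 →
  1 / 2 ≤ (Fintype.card Q : ℝ) * (1 - ρ) ^ Fintype.card V →
  (Fintype.card Q : ℝ) * (1 - ρ) ^ Fintype.card V ≤ 1 →
  K ≤ 2 ^ s → (∀ i, Crt0 k (g i)) → 4 * k ^ 2 + s + 10 ≤ m →
  2 * (2 * m * (2 * k + 1)) ≤ Fintype.card Q →
  (∑ ξ : Q → V → Bool, if ((∃ i, g i ξ) ↔ ∀ q, ∃ v, ξ q v = true) then wt ρ ξ else 0) ≤ 31 / 32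

/-- row PSH: from the biased measure to uniform blocks of `j` bits. -/
def ST_PSH : Prop := ∀ (Q V : Type) [Fintype Q] [Fintype V] (j : ℕ) (θ : ℝ)
  (F : (Q → V → Fin j → Bool) → Prop), 1 ≤ j →
  (∀ Z : Q → V → Fin j → Bool, (∀ q v, Z q v ≠ fun _ => true) →
    (∑ ξ : Q → V → Bool, if F (fun q v => if ξ q v = true then (fun _ => true) else Z q v)
      then wt ((1 / 2 : ℝ) ^ j) ξ else 0) ≤ θ) →
  ((Finset.univ.filter (fun b : Q → V → Fin j → Bool => F b)).card : ℝ)
    ≤ θ * (2 : ℝ) ^ (j * (Fintype.card Q * Fintype.card V))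

/-! ### Levels -/

/-- the words of length `n` -/
noncomputable def Qf (n : ℕ) : Finset Str :=
  (Finset.univ : Finset (Fin n → Bool)).image List.ofFn

/-- the columns of level `n` -/
noncomputable def Vf (T : Lang) (n : ℕ) : Finset Str := (Qf (2 * n)).filter (fun v => v.reverse ∈ T)

/-- the coordinates of level `n` -/
noncomputable def blk (T : Lang) (n : ℕ) : Finset Str :=
  ((Qf n ×ˢ Vf T n) ×ˢ Finset.range n).image (fun e => code e.1.1 e.1.2 e.2)

/-- overriding an oracle on a finite set of coordinates -/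
noncomputable def ovr (S : Finset Str) (R : Str → Bool) (b : S → Bool) : Str → Bool :=
  fun x => if h : x ∈ S then b ⟨x, h⟩ else R x

/-- the good sets `T`: about `n 2^n ln 2` columns on level `n` -/
def GoodT (T : Lang) : Prop := ∀ n : ℕ, 1 ≤ n →
  1 / 2 ≤ (2 : ℝ) ^ n * (1 - (1 / 2 : ℝ) ^ n) ^ (Vf T n).card ∧
  (2 : ℝ) ^ n * (1 - (1 / 2 : ℝ) ^ n) ^ (Vf T n).card ≤ 1

/-- row GDT: there is a good set. -/
def ST_GDT : Prop := ∃ T : Lang, GoodT T

/-- row COD: the codes are injective, and the codes of level `n` have length more than `n`. -/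
def ST_COD : Prop :=
  (∀ q v q' v' : Str, ∀ t t' : ℕ, v.length = 2 * q.length → v'.length = 2 * q'.length →
    code q v t = code q' v' t' → q = q' ∧ v = v' ∧ t = t') ∧
  (∀ q v : Str, ∀ t : ℕ, v.length = 2 * q.length → q.length < (code q v t).length)

/-- row LVL: on a large level a triple of machines is wrong with probability at least `1/32`,
for every choice of the other coordinates. -/
def ST_LVL : Prop := ∀ (T : Lang), GoodT T → ∀ s : Tri, ∃ n0 : ℕ, ∀ n, n0 ≤ n →
  ∀ R : Str → Bool,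
  ((Finset.univ.filter (fun b : blk T n → Bool =>
    (List.replicate n true ∈ s.F (join T (orc (ovr (blk T n) R b))) ↔
      List.replicate n true ∈ Lset (Aset T (ovr (blk T n) R b))))).card : ℝ)
    ≤ 31 / 32 * (2 : ℝ) ^ (blk T n).card

/-- row EMR: a row is empty with probability `(1 - 2^-n)^W`. -/
def ST_EMR : Prop := ∀ (T : Lang) (n : ℕ), 1 ≤ n → ∀ q ∈ Qf n, ∀ R : Str → Bool,
  ((Finset.univ.filter (fun b : blk T n → Bool => q ∉ Aset T (ovr (blk T n) R b))).card : ℝ)
    ≤ (1 - (1 / 2 : ℝ) ^ n) ^ (Vf T n).card * (2 : ℝ) ^ (blk T n).card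

/-! ### Measure -/

/-- a predicate of the oracle depends only on the coordinates in `D` -/
def Dep (D : Set Str) (Φ : (Str → Bool) → Prop) : Prop :=
  ∀ R R' : Str → Bool, (∀ x ∈ D, R x = R' x) → (Φ R ↔ Φ R')

/-- row CYL: conditioning on the coordinates outside a finite set `S`. -/
def ST_CYL : Prop := ∀ (D S : Finset Str) (G Φ : (Str → Bool) → Prop) (θ : ℝ), 0 ≤ θ →
  Dep (D : Set Str) G → Dep (D : Set Str) Φ → Dep ((S : Set Str)ᶜ) G →
  (∀ R : Str → Bool,
    ((Finset.univ.filter (fun b : S → Bool => Φ (ovr S R b))).card : ℝ) ≤ θ * (2 : ℝ) ^ S.card) →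
  randomOracle {R | G R ∧ Φ R} ≤ ENNReal.ofReal θ * randomOracle {R | G R}

/-- row NUL: almost surely a given triple of machines is wrong somewhere. -/
def ST_NUL : Prop := ∀ T : Lang, GoodT T → ∀ s : Tri, ∀ᵐ R ∂randomOracle,
  s.F (join T (orc R)) ≠ Lset (Aset T R)

/-- row SPA: almost surely the set is co-sparse. -/
def ST_SPA : Prop := ∀ T : Lang, GoodT T → ∀ᵐ R ∂randomOracle, CoSparse (Aset T R)

end Pool.Agent.Helper62.CS
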