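import Pool.Agent.Helper62.CS.Stmts

/-!
Second part of project CS (MP_2bf3f9_lc): the version without the auxiliary set `T`.
-/

namespace Pool.Agent.Helper62.CS

open Classical MeasureTheory

/-- Bold play: a capital `d` out of `k`, the coins are `x`. A player with `2 d < k` bets
everything, otherwise `k - d`; the coin `false` wins. The value is `true` if `k` is reached. -/
def bold (k : ℕ) : ℕ → Str → Bool
  | _, [] => false
  | d, b :: x =>
      if 2 * d < k then (if b then false else bold k (2 * d) x)
      else (if b then bold k (2 * d - k) x else true)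

/-- The explicit set of columns: `1^j 0^(n-j) x` with `|x| = n`, `j < n` and the bold play with
the coins `x` and the capital `n` out of `n + j` is won. There are about `2^n * n / (n + j)`
of them for every `j`, and `2^n * (n ln 2 + 1/4)` of them on level `n`. -/
def T0 : Lang := {w | ∃ (n j : ℕ) (x : Str), x.length = n ∧ j < n ∧
  w = List.replicate j true ++ (List.replicate (n - j) false ++ x) ∧ bold (n + j) n x = true}

/-- The program for `Aset T0 R` (no auxiliary oracle). Stacks: 0 = `q`, 1 = `v`, 2 = the code,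
3 = 5 = `n` in unary, 4 = reverse of `v`, 6 = `k = n + j`, 7 = `d`, 8 and 9 auxiliary. -/
def progR : Prog :=
  [ Instr.pop 0 17 1 2,        -- 0
    Instr.push 2 false 3,      -- 1
    Instr.push 2 true 3,       -- 2
    Instr.push 3 true 4,       -- 3
    Instr.push 5 true 5,       -- 4
    Instr.push 6 true 6,       -- 5
    Instr.push 7 true 7,       -- 6
    Instr.pop 1 44 8 10,       -- 7
    Instr.push 2 false 9,      -- 8
    Instr.push 4 false 12,     -- 9
    Instr.push 2 true 11,      -- 10
    Instr.push 4 true 12,      -- 11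
    Instr.pop 1 44 13 15,      -- 12
    Instr.push 2 false 14,     -- 13
    Instr.push 4 false 0,      -- 14
    Instr.push 2 true 16,      -- 15
    Instr.push 4 true 0,       -- 16
    Instr.pop 1 18 44 44,      -- 17
    Instr.pop 5 44 44 19,      -- 18  the ones of the word on stack 4
    Instr.pop 4 44 21 20,      -- 19
    Instr.push 6 true 18,      -- 20
    Instr.pop 5 23 44 22,      -- 21  the zeros
    Instr.pop 4 44 21 44,      -- 22
    Instr.pop 7 26 44 24,      -- 23  a round of the bold play: double `d`, from 7 to 8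
    Instr.push 8 true 25,      -- 24
    Instr.push 8 true 23,      -- 25
    Instr.pop 6 33 44 27,      -- 26  compare 6 and 8, matched pairs go to 9
    Instr.pop 8 29 44 28,      -- 27
    Instr.push 9 true 26,      -- 28
    Instr.push 6 true 30,      -- 29  case 2d < k
    Instr.pop 4 44 31 44,      -- 30
    Instr.pop 9 23 44 32,      -- 31
    Instr.push 6 true 38,      -- 32
    Instr.pop 4 44 39 34,      -- 33  case 2d >= k
    Instr.pop 9 36 44 35,      -- 34
    Instr.push 6 true 34,      -- 35
    Instr.pop 8 23 44 37,      -- 36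
    Instr.push 7 true 36,      -- 37
    Instr.push 7 true 31,      -- 38
    Instr.push 2 false 40,     -- 39  the play is won
    Instr.pop 3 43 44 41,      -- 40
    Instr.query 2 44 42,       -- 41
    Instr.push 2 true 40,      -- 42
    Instr.accept,              -- 43
    Instr.reject ]             -- 44

/-- row BLD: the bold play on the machine. -/
def ST_BLD : Prop := ∀ (O : Lang) (k d : ℕ) (x : Str) (s : ℕ → Str), d ≤ k →
  s 4 = x → s 6 = List.replicate k true → s 7 = List.replicate d true → s 8 = [] → s 9 = [] →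
  ∃ (t : ℕ) (s' : ℕ → Str), t ≤ (20 * k + 20) * (x.length + 1) ∧
    (step progR O)^[t] ⟨23, s⟩ = ⟨if bold k d x = true then 39 else 44, s'⟩ ∧
    s' 2 = s 2 ∧ s' 3 = s 3

/-- row UR: `Aset T0 R` is in `NP(R)`. -/
def ST_UR : Prop := ∀ R : Str → Bool, Aset T0 R ∈ NPClass (orc R)

/-- row CNT: the number of the plays that are won. -/
def ST_CNT : Prop := ∀ k m d : ℕ, d ≤ k →
  k * ((Qf m).filter (fun x => bold k d x = true)).card ≤ 2 ^ m * d ∧
  2 ^ m * d ≤ k * (((Qf m).filter (fun x => bold k d x = true)).card + 1)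

/-- row CRD: the number of columns. -/
def ST_CRD : Prop := ∀ n : ℕ, (Vf T0 n).card =
  ∑ j ∈ Finset.range n, ((Qf n).filter (fun x => bold (n + j) n x = true)).card

/-- row HRM: harmonic sums. -/
def ST_HRM : Prop := ∀ n : ℕ, 1 ≤ n →
  (n : ℝ) * Real.log 2 + 1 / 16 ≤ ∑ j ∈ Finset.range n, (n : ℝ) / ((n : ℝ) + (j : ℝ)) ∧
  ∑ j ∈ Finset.range n, (n : ℝ) / ((n : ℝ) + (j : ℝ)) ≤ (n : ℝ) * Real.log 2 + 1 / 2

/-- row GD0: `T0` is good (for `n ≤ 6` the numbers of columns are 1, 5, 17, 46, 116, 279). -/
def ST_GD0 : Prop := GoodT T0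

/-- row LVR: the row LVL for the oracle `R` alone. -/
def ST_LVR : Prop := ∀ (T : Lang), GoodT T → ∀ s : Tri, ∃ n0 : ℕ, ∀ n, n0 ≤ n →
  ∀ R : Str → Bool,
  ((Finset.univ.filter (fun b : blk T n → Bool =>
    (List.replicate n true ∈ s.F (orc (ovr (blk T n) R b)) ↔
      List.replicate n true ∈ Lset (Aset T (ovr (blk T n) R b))))).card : ℝ)
    ≤ 31 / 32 * (2 : ℝ) ^ (blk T n).card

/-- row NLR: the row NUL for the oracle `R` alone. -/
def ST_NLR : Prop := ∀ T : Lang, GoodT T → ∀ s : Tri, ∀ᵐ R ∂randomOracle,
  s.F (orc R) ≠ Lset (Aset T R)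

end Pool.Agent.Helper62.CS
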