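import Pool.Agent.Helper62.CS.Stmts

/-!
Row UA of project CS: the program `progA` is correct.
-/

namespace Pool.Agent.Helper62.CS

open Classical

namespace UA

/-- five stacks -/
def st5 (s0 s1 s2 s3 s4 : Str) : ℕ → Str := fun i =>
  match i with
  | 0 => s0
  | 1 => s1
  | 2 => s2
  | 3 => s3
  | 4 => s4
  | _ => []

theorem upd0 (s0 s1 s2 s3 s4 x : Str) :
    Function.update (st5 s0 s1 s2 s3 s4) 0 x = st5 x s1 s2 s3 s4 := by
  funext i
  rcases i with _ | _ | _ | _ | _ | i <;> simp [st5, Function.update]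

theorem upd1 (s0 s1 s2 s3 s4 x : Str) :
    Function.update (st5 s0 s1 s2 s3 s4) 1 x = st5 s0 x s2 s3 s4 := by
  funext i
  rcases i with _ | _ | _ | _ | _ | i <;> simp [st5, Function.update]

theorem upd2 (s0 s1 s2 s3 s4 x : Str) :
    Function.update (st5 s0 s1 s2 s3 s4) 2 x = st5 s0 s1 x s3 s4 := by
  funext i
  rcases i with _ | _ | _ | _ | _ | i <;> simp [st5, Function.update]

theorem upd3 (s0 s1 s2 s3 s4 x : Str) :
    Function.update (st5 s0 s1 s2 s3 s4) 3 x = st5 s0 s1 s2 x s4 := by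
  funext i
  rcases i with _ | _ | _ | _ | _ | i <;> simp [st5, Function.update]

theorem upd4 (s0 s1 s2 s3 s4 x : Str) :
    Function.update (st5 s0 s1 s2 s3 s4) 4 x = st5 s0 s1 s2 s3 x := by
  funext i
  rcases i with _ | _ | _ | _ | _ | i <;> simp [st5, Function.update]

/-- reaching a configuration within `K` steps -/
def RunsTo (P : Prog) (O : Lang) (K : ℕ) (c c' : Cfg) : Prop :=
  ∃ k ≤ K, (step P O)^[k] c = c'

theorem RunsTo.refl (P : Prog) (O : Lang) (K : ℕ) (c : Cfg) : RunsTo P O K c c :=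
  ⟨0, Nat.zero_le _, rfl⟩

theorem RunsTo.trans {P : Prog} {O : Lang} {K K' : ℕ} {c c' c'' : Cfg}
    (h : RunsTo P O K c c') (h' : RunsTo P O K' c' c'') : RunsTo P O (K + K') c c'' := by
  obtain ⟨k, hk, e⟩ := h
  obtain ⟨k', hk', e'⟩ := h'
  refine ⟨k' + k, by omega, ?_⟩
  rw [Function.iterate_add_apply, e, e']

theorem RunsTo.mono {P : Prog} {O : Lang} {K K' : ℕ} {c c' : Cfg}
    (h : RunsTo P O K c c') (hK : K ≤ K') : RunsTo P O K' c c' := by
  obtain ⟨k, hk, e⟩ := h
  exact ⟨k, by omega, e⟩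

theorem RunsTo.one {P : Prog} {O : Lang} {c c' : Cfg} (h : step P O c = c') :
    RunsTo P O 1 c c' := ⟨1, le_rfl, by simpa using h⟩

theorem RunsTo.head {P : Prog} {O : Lang} {K : ℕ} {c c' c'' : Cfg}
    (h : step P O c = c') (h' : RunsTo P O K c' c'') : RunsTo P O (K + 1) c c'' := by
  have := (RunsTo.one h).trans h'
  exact this.mono (by omega)

theorem fix_iter {P : Prog} {O : Lang} {c : Cfg} (h : step P O c = c) (k : ℕ) :
    (step P O)^[k] c = c := Function.iterate_fixed h k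

theorem step_accept {P : Prog} {O : Lang} {c : Cfg} (h : P[c.pc]? = some Instr.accept) :
    step P O c = c := by
  simp [step, stepA, h]

theorem step_reject {P : Prog} {O : Lang} {c : Cfg} (h : P[c.pc]? = some Instr.reject) :
    step P O c = c := by
  simp [step, stepA, h]

theorem accepts_of {P : Prog} {O : Lang} {inp : List Str} {K T : ℕ} {c : Cfg}
    (h : RunsTo P O K (init inp) c) (hc : P[c.pc]? = some Instr.accept) (hT : K ≤ T) :
    Accepts P O inp T := by
  obtain ⟨k, hk, e⟩ := h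
  have : (step P O)^[T] (init inp) = c := by
    have : T = (T - k) + k := by omega
    rw [this, Function.iterate_add_apply, e]
    exact fix_iter (step_accept hc) _
  rw [Accepts, this]; exact hc

theorem not_accepts_of {P : Prog} {O : Lang} {inp : List Str} {K T : ℕ} {c : Cfg}
    (h : RunsTo P O K (init inp) c) (hc : P[c.pc]? = some Instr.reject) (hT : K ≤ T) :
    ¬ Accepts P O inp T := by
  obtain ⟨k, hk, e⟩ := h
  have : (step P O)^[T] (init inp) = c := by
    have : T = (T - k) + k := by omega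
    rw [this, Function.iterate_add_apply, e]
    exact fix_iter (step_reject hc) _
  rw [Accepts, this, hc]; simp

variable (O : Lang) (s0 s1 s2 s3 s4 : Str)

theorem l0n : step progA O ⟨0, st5 [] s1 s2 s3 s4⟩ = ⟨14, st5 [] s1 s2 s3 s4⟩ := by
  simp [step, stepA, progA, st5]

theorem l0f : step progA O ⟨0, st5 (false :: s0) s1 s2 s3 s4⟩ = ⟨1, st5 s0 s1 s2 s3 s4⟩ := by
  simp [step, stepA, progA, upd0]; rfl

theorem l0t : step progA O ⟨0, st5 (true :: s0) s1 s2 s3 s4⟩ = ⟨2, st5 s0 s1 s2 s3 s4⟩ := by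
  simp [step, stepA, progA, upd0]; rfl

theorem l1 : step progA O ⟨1, st5 s0 s1 s2 s3 s4⟩ = ⟨3, st5 s0 s1 (false :: s2) s3 s4⟩ := by
  simp [step, stepA, progA, upd2]; rfl

theorem l2 : step progA O ⟨2, st5 s0 s1 s2 s3 s4⟩ = ⟨3, st5 s0 s1 (true :: s2) s3 s4⟩ := by
  simp [step, stepA, progA, upd2]; rfl

theorem l3 : step progA O ⟨3, st5 s0 s1 s2 s3 s4⟩ = ⟨4, st5 s0 s1 s2 (true :: s3) s4⟩ := by
  simp [step, stepA, progA, upd3]; rfl

theorem l4n : step progA O ⟨4, st5 s0 [] s2 s3 s4⟩ = ⟨23, st5 s0 [] s2 s3 s4⟩ := by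
  simp [step, stepA, progA, st5]

theorem l4f : step progA O ⟨4, st5 s0 (false :: s1) s2 s3 s4⟩ = ⟨5, st5 s0 s1 s2 s3 s4⟩ := by
  simp [step, stepA, progA, upd1]; rfl

theorem l4t : step progA O ⟨4, st5 s0 (true :: s1) s2 s3 s4⟩ = ⟨7, st5 s0 s1 s2 s3 s4⟩ := by
  simp [step, stepA, progA, upd1]; rfl

theorem l5 : step progA O ⟨5, st5 s0 s1 s2 s3 s4⟩ = ⟨6, st5 s0 s1 (false :: s2) s3 s4⟩ := by
  simp [step, stepA, progA, upd2]; rfl

theorem l6 : step progA O ⟨6, st5 s0 s1 s2 s3 s4⟩ = ⟨9, st5 s0 s1 s2 s3 (false :: s4)⟩ := by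
  simp [step, stepA, progA, upd4]; rfl

theorem l7 : step progA O ⟨7, st5 s0 s1 s2 s3 s4⟩ = ⟨8, st5 s0 s1 (true :: s2) s3 s4⟩ := by
  simp [step, stepA, progA, upd2]; rfl

theorem l8 : step progA O ⟨8, st5 s0 s1 s2 s3 s4⟩ = ⟨9, st5 s0 s1 s2 s3 (true :: s4)⟩ := by
  simp [step, stepA, progA, upd4]; rfl

theorem l9n : step progA O ⟨9, st5 s0 [] s2 s3 s4⟩ = ⟨23, st5 s0 [] s2 s3 s4⟩ := by
  simp [step, stepA, progA, st5]

theorem l9f : step progA O ⟨9, st5 s0 (false :: s1) s2 s3 s4⟩ = ⟨10, st5 s0 s1 s2 s3 s4⟩ := by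
  simp [step, stepA, progA, upd1]; rfl

theorem l9t : step progA O ⟨9, st5 s0 (true :: s1) s2 s3 s4⟩ = ⟨12, st5 s0 s1 s2 s3 s4⟩ := by
  simp [step, stepA, progA, upd1]; rfl

theorem l10 : step progA O ⟨10, st5 s0 s1 s2 s3 s4⟩ = ⟨11, st5 s0 s1 (false :: s2) s3 s4⟩ := by
  simp [step, stepA, progA, upd2]; rfl

theorem l11 : step progA O ⟨11, st5 s0 s1 s2 s3 s4⟩ = ⟨0, st5 s0 s1 s2 s3 (false :: s4)⟩ := by
  simp [step, stepA, progA, upd4]; rfl

theorem l12 : step progA O ⟨12, st5 s0 s1 s2 s3 s4⟩ = ⟨13, st5 s0 s1 (true :: s2) s3 s4⟩ := by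
  simp [step, stepA, progA, upd2]; rfl

theorem l13 : step progA O ⟨13, st5 s0 s1 s2 s3 s4⟩ = ⟨0, st5 s0 s1 s2 s3 (true :: s4)⟩ := by
  simp [step, stepA, progA, upd4]; rfl

theorem l14n : step progA O ⟨14, st5 s0 [] s2 s3 s4⟩ = ⟨15, st5 s0 [] s2 s3 s4⟩ := by
  simp [step, stepA, progA, st5]

theorem l14c (b : Bool) :
    step progA O ⟨14, st5 s0 (b :: s1) s2 s3 s4⟩ = ⟨23, st5 s0 s1 s2 s3 s4⟩ := by
  cases b <;> (simp [step, stepA, progA, upd1]; rfl)

theorem l15 : step progA O ⟨15, st5 s0 s1 s2 s3 s4⟩ = ⟨16, st5 s0 s1 s2 s3 (false :: s4)⟩ := by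
  simp [step, stepA, progA, upd4]; rfl

theorem l16 : step progA O ⟨16, st5 s0 s1 s2 s3 s4⟩ =
    ⟨if s4 ∈ O then 17 else 23, st5 s0 s1 s2 s3 s4⟩ := by
  simp [step, stepA, progA, qstr, st5]

theorem l17 : step progA O ⟨17, st5 s0 s1 s2 s3 s4⟩ = ⟨18, st5 s0 s1 (false :: s2) s3 s4⟩ := by
  simp [step, stepA, progA, upd2]; rfl

theorem l18 : step progA O ⟨18, st5 s0 s1 s2 s3 s4⟩ = ⟨19, st5 s0 s1 (true :: s2) s3 s4⟩ := by
  simp [step, stepA, progA, upd2]; rfl

theorem l19n : step progA O ⟨19, st5 s0 s1 s2 [] s4⟩ = ⟨22, st5 s0 s1 s2 [] s4⟩ := by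
  simp [step, stepA, progA, st5]

theorem l19t : step progA O ⟨19, st5 s0 s1 s2 (true :: s3) s4⟩ = ⟨20, st5 s0 s1 s2 s3 s4⟩ := by
  simp [step, stepA, progA, upd3]; rfl

theorem l20 : step progA O ⟨20, st5 s0 s1 s2 s3 s4⟩ =
    ⟨if s2 ∈ O then 21 else 23, st5 s0 s1 s2 s3 s4⟩ := by
  simp [step, stepA, progA, qstr, st5]

theorem l21 : step progA O ⟨21, st5 s0 s1 s2 s3 s4⟩ = ⟨19, st5 s0 s1 (true :: s2) s3 s4⟩ := by
  simp [step, stepA, progA, upd2]; rfl

theorem init_eq (q v : Str) : init [q, v] = ⟨0, st5 q v [] [] []⟩ := by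
  simp only [init]
  congr 1
  funext i
  rcases i with _ | _ | _ | _ | _ | i <;> simp [st5]

variable {O s0 s1 s2 s3 s4}

/-- the first loop, one round -/
theorem round1 (bq b1 b2 : Bool) :
    RunsTo progA O 9 ⟨0, st5 (bq :: s0) (b1 :: b2 :: s1) s2 s3 s4⟩
      ⟨0, st5 s0 s1 (b2 :: b1 :: bq :: s2) (true :: s3) (b2 :: b1 :: s4)⟩ := by
  have h1 : RunsTo progA O 3 ⟨0, st5 (bq :: s0) (b1 :: b2 :: s1) s2 s3 s4⟩
      ⟨4, st5 s0 (b1 :: b2 :: s1) (bq :: s2) (true :: s3) s4⟩ := by
    cases bq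
    · exact RunsTo.head (l0f _ _ _ _ _ _) (RunsTo.head (l1 _ _ _ _ _ _) (RunsTo.one (l3 _ _ _ _ _ _)))
    · exact RunsTo.head (l0t _ _ _ _ _ _) (RunsTo.head (l2 _ _ _ _ _ _) (RunsTo.one (l3 _ _ _ _ _ _)))
  have h2 : RunsTo progA O 3 ⟨4, st5 s0 (b1 :: b2 :: s1) (bq :: s2) (true :: s3) s4⟩
      ⟨9, st5 s0 (b2 :: s1) (b1 :: bq :: s2) (true :: s3) (b1 :: s4)⟩ := by
    cases b1
    · exact RunsTo.head (l4f _ _ _ _ _ _) (RunsTo.head (l5 _ _ _ _ _ _) (RunsTo.one (l6 _ _ _ _ _ _)))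
    · exact RunsTo.head (l4t _ _ _ _ _ _) (RunsTo.head (l7 _ _ _ _ _ _) (RunsTo.one (l8 _ _ _ _ _ _)))
  have h3 : RunsTo progA O 3 ⟨9, st5 s0 (b2 :: s1) (b1 :: bq :: s2) (true :: s3) (b1 :: s4)⟩
      ⟨0, st5 s0 s1 (b2 :: b1 :: bq :: s2) (true :: s3) (b2 :: b1 :: s4)⟩ := by
    cases b2
    · exact RunsTo.head (l9f _ _ _ _ _ _) (RunsTo.head (l10 _ _ _ _ _ _) (RunsTo.one (l11 _ _ _ _ _ _)))
    · exact RunsTo.head (l9t _ _ _ _ _ _) (RunsTo.head (l12 _ _ _ _ _ _) (RunsTo.one (l13 _ _ _ _ _ _)))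
  exact (h1.trans h2).trans h3

/-- the first loop when `v` is too short -/
theorem short0 (bq : Bool) :
    RunsTo progA O 4 ⟨0, st5 (bq :: s0) [] s2 s3 s4⟩
      ⟨23, st5 s0 [] (bq :: s2) (true :: s3) s4⟩ := by
  cases bq
  · exact RunsTo.head (l0f _ _ _ _ _ _) (RunsTo.head (l1 _ _ _ _ _ _)
      (RunsTo.head (l3 _ _ _ _ _ _) (RunsTo.one (l4n _ _ _ _ _))))
  · exact RunsTo.head (l0t _ _ _ _ _ _) (RunsTo.head (l2 _ _ _ _ _ _)
      (RunsTo.head (l3 _ _ _ _ _ _) (RunsTo.one (l4n _ _ _ _ _))))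

theorem short1 (bq b1 : Bool) :
    RunsTo progA O 7 ⟨0, st5 (bq :: s0) [b1] s2 s3 s4⟩
      ⟨23, st5 s0 [] (b1 :: bq :: s2) (true :: s3) (b1 :: s4)⟩ := by
  have h1 : RunsTo progA O 3 ⟨0, st5 (bq :: s0) [b1] s2 s3 s4⟩
      ⟨4, st5 s0 [b1] (bq :: s2) (true :: s3) s4⟩ := by
    cases bq
    · exact RunsTo.head (l0f _ _ _ _ _ _) (RunsTo.head (l1 _ _ _ _ _ _) (RunsTo.one (l3 _ _ _ _ _ _)))
    · exact RunsTo.head (l0t _ _ _ _ _ _) (RunsTo.head (l2 _ _ _ _ _ _) (RunsTo.one (l3 _ _ _ _ _ _)))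
  have h2 : RunsTo progA O 4 ⟨4, st5 s0 [b1] (bq :: s2) (true :: s3) s4⟩
      ⟨23, st5 s0 [] (b1 :: bq :: s2) (true :: s3) (b1 :: s4)⟩ := by
    cases b1
    · exact RunsTo.head (l4f _ _ _ _ _ _) (RunsTo.head (l5 _ _ _ _ _ _)
        (RunsTo.head (l6 _ _ _ _ _ _) (RunsTo.one (l9n _ _ _ _ _))))
    · exact RunsTo.head (l4t _ _ _ _ _ _) (RunsTo.head (l7 _ _ _ _ _ _)
        (RunsTo.head (l8 _ _ _ _ _ _) (RunsTo.one (l9n _ _ _ _ _))))
  exact h1.trans h2

/-- the first loop -/
theorem loop1 : ∀ (q v acc c w : Str),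
    (2 * q.length ≤ v.length → RunsTo progA O (9 * q.length + 1) ⟨0, st5 q v acc c w⟩
      ⟨14, st5 [] (v.drop (2 * q.length)) (wenc q v acc) (List.replicate q.length true ++ c)
        ((v.take (2 * q.length)).reverse ++ w)⟩) ∧
    (v.length < 2 * q.length → ∃ c' : Cfg, c'.pc = 23 ∧
      RunsTo progA O (9 * q.length + 1) ⟨0, st5 q v acc c w⟩ c') := by
  intro q
  induction q with
  | nil =>
    intro v acc c w
    refine ⟨fun _ => ?_, fun h => by simp at h⟩
    have := RunsTo.one (l0n O v acc c w)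
    simpa [wenc] using this
  | cons bq q ih =>
    intro v acc c w
    match v with
    | [] =>
      refine ⟨fun h => by simp at h, fun _ => ?_⟩
      exact ⟨_, rfl, short0 (O := O) (s0 := q) (s2 := acc) (s3 := c) (s4 := w) bq |>.mono
        (by simp; omega)⟩
    | [b1] =>
      refine ⟨fun h => by simp at h; omega, fun _ => ?_⟩
      exact ⟨_, rfl, short1 (O := O) (s0 := q) (s2 := acc) (s3 := c) (s4 := w) bq b1 |>.mono
        (by simp; omega)⟩
    | b1 :: b2 :: v =>
      have hr := round1 (O := O) (s0 := q) (s1 := v) (s2 := acc) (s3 := c) (s4 := w) bq b1 b2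
      obtain ⟨ih1, ih2⟩ := ih v (b2 :: b1 :: bq :: acc) (true :: c) (b2 :: b1 :: w)
      constructor
      · intro h
        have h' : 2 * q.length ≤ v.length := by simp at h; omega
        have := hr.trans (ih1 h')
        have e : 2 * (bq :: q).length = 2 * q.length + 2 := by simp; ring
        rw [e]
        have e2 : List.replicate (bq :: q).length true ++ c
            = List.replicate q.length true ++ true :: c := by
          rw [List.length_cons, List.replicate_succ', List.append_assoc]; rfl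
        rw [e2]
        refine RunsTo.mono (K := 9 + (9 * q.length + 1)) ?_ (by simp; omega)
        simpa [wenc] using this
      · intro h
        have h' : v.length < 2 * q.length := by simp at h; omega
        obtain ⟨c', hc', hh⟩ := ih2 h'
        exact ⟨c', hc', (hr.trans hh).mono (by simp; omega)⟩

/-- the second loop -/
theorem loop2 : ∀ (m : ℕ) (s w : Str),
    ((∀ i < m, List.replicate i true ++ s ∈ O) →
      ∃ c' : Cfg, c'.pc = 22 ∧
        RunsTo progA O (3 * m + 1) ⟨19, st5 [] [] s (List.replicate m true) w⟩ c') ∧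
    ((¬ ∀ i < m, List.replicate i true ++ s ∈ O) →
      ∃ c' : Cfg, c'.pc = 23 ∧
        RunsTo progA O (3 * m + 1) ⟨19, st5 [] [] s (List.replicate m true) w⟩ c') := by
  intro m
  induction m with
  | zero =>
    intro s w
    refine ⟨fun _ => ⟨_, rfl, RunsTo.one (l19n _ _ _ _ _)⟩, fun h => ?_⟩
    exact absurd (fun i hi => absurd hi (Nat.not_lt_zero _)) h
  | succ m ih =>
    intro s w
    have h19 : step progA O ⟨19, st5 [] [] s (List.replicate (m + 1) true) w⟩
        = ⟨20, st5 [] [] s (List.replicate m true) w⟩ := by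
      rw [List.replicate_succ]; exact l19t _ _ _ _ _ _
    by_cases hs : s ∈ O
    · have h20 : step progA O ⟨20, st5 [] [] s (List.replicate m true) w⟩
          = ⟨21, st5 [] [] s (List.replicate m true) w⟩ := by
        rw [l20, if_pos hs]
      have hr : RunsTo progA O 3 ⟨19, st5 [] [] s (List.replicate (m + 1) true) w⟩
          ⟨19, st5 [] [] (true :: s) (List.replicate m true) w⟩ :=
        RunsTo.head h19 (RunsTo.head h20 (RunsTo.one (l21 _ _ _ _ _ _)))
      have key : (∀ i < m + 1, List.replicate i true ++ s ∈ O) ↔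
          (∀ i < m, List.replicate i true ++ (true :: s) ∈ O) := by
        have e : ∀ i : ℕ, List.replicate i true ++ (true :: s)
            = List.replicate (i + 1) true ++ s := by
          intro i
          rw [List.replicate_succ', List.append_assoc]; rfl
        constructor
        · intro h i hi
          rw [e]; exact h (i + 1) (by omega)
        · intro h i hi
          rcases i with _ | i
          · simpa using hs
          · rw [← e]; exact h i (by omega)
      obtain ⟨ih1, ih2⟩ := ih (true :: s) w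
      constructor
      · intro h
        obtain ⟨c', hc', hh⟩ := ih1 (key.1 h)
        exact ⟨c', hc', (hr.trans hh).mono (by omega)⟩
      · intro h
        obtain ⟨c', hc', hh⟩ := ih2 (fun h' => h (key.2 h'))
        exact ⟨c', hc', (hr.trans hh).mono (by omega)⟩
    · have h20 : step progA O ⟨20, st5 [] [] s (List.replicate m true) w⟩
          = ⟨23, st5 [] [] s (List.replicate m true) w⟩ := by
        rw [l20, if_neg hs]
      have hr : RunsTo progA O 2 ⟨19, st5 [] [] s (List.replicate (m + 1) true) w⟩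
          ⟨23, st5 [] [] s (List.replicate m true) w⟩ :=
        RunsTo.head h19 (RunsTo.one h20)
      refine ⟨fun h => absurd (by simpa using h 0 (by omega)) hs, fun _ => ⟨_, rfl, hr.mono (by omega)⟩⟩

theorem pc22 {c : Cfg} (h : c.pc = 22) : progA[c.pc]? = some Instr.accept := by
  rw [h]; rfl

theorem pc23 {c : Cfg} (h : c.pc = 23) : progA[c.pc]? = some Instr.reject := by
  rw [h]; rfl

/-- the specification of the program -/
theorem spec (q v : Str) (T : ℕ) (hT : 12 * q.length + 10 ≤ T) :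
    Accepts progA O [q, v] T ↔ (v.length = 2 * q.length ∧ false :: v.reverse ∈ O ∧
      ∀ i < q.length, List.replicate i true ++ (true :: false :: wenc q v []) ∈ O) := by
  obtain ⟨h1, h2⟩ := loop1 (O := O) q v [] [] []
  rcases lt_trichotomy v.length (2 * q.length) with hlt | heq | hgt
  · obtain ⟨c', hc', hr⟩ := h2 hlt
    rw [← init_eq] at hr
    have := not_accepts_of hr (pc23 hc') (T := T) (by omega)
    exact ⟨fun h => absurd h this, fun h => by omega⟩
  · have hr := h1 heq.ge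
    rw [← init_eq, ← heq] at hr
    simp only [List.drop_length, List.take_length, List.append_nil] at hr
    have hr2 := (hr.trans (RunsTo.one (l14n O [] _ _ _))).trans (RunsTo.one (l15 O [] [] _ _ _))
    by_cases hT' : false :: v.reverse ∈ O
    · have h16 : step progA O ⟨16, st5 [] [] (wenc q v []) (List.replicate q.length true)
          (false :: v.reverse)⟩ = ⟨17, st5 [] [] (wenc q v []) (List.replicate q.length true)
          (false :: v.reverse)⟩ := by rw [l16, if_pos hT']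
      have hr3 := ((hr2.trans (RunsTo.one h16)).trans (RunsTo.one (l17 O _ _ _ _ _))).trans
        (RunsTo.one (l18 O _ _ _ _ _))
      obtain ⟨g1, g2⟩ := loop2 (O := O) q.length (true :: false :: wenc q v []) (false :: v.reverse)
      by_cases hall : ∀ i < q.length, List.replicate i true ++ (true :: false :: wenc q v []) ∈ O
      · obtain ⟨c', hc', hh⟩ := g1 hall
        have := accepts_of (hr3.trans hh) (pc22 hc') (T := T) (by omega)
        exact ⟨fun _ => ⟨heq, hT', hall⟩, fun _ => this⟩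
      · obtain ⟨c', hc', hh⟩ := g2 hall
        have := not_accepts_of (hr3.trans hh) (pc23 hc') (T := T) (by omega)
        exact ⟨fun h => absurd h this, fun h => absurd h.2.2 hall⟩
    · have h16 : step progA O ⟨16, st5 [] [] (wenc q v []) (List.replicate q.length true)
          (false :: v.reverse)⟩ = ⟨23, st5 [] [] (wenc q v []) (List.replicate q.length true)
          (false :: v.reverse)⟩ := by rw [l16, if_neg hT']
      have hr3 := hr2.trans (RunsTo.one h16)
      have := not_accepts_of hr3 (pc23 rfl) (T := T) (by omega)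
      exact ⟨fun h => absurd h this, fun h => absurd h.2.1 hT'⟩
  · have hr := h1 hgt.le
    rw [← init_eq] at hr
    obtain ⟨b, l, hbl⟩ : ∃ b l, v.drop (2 * q.length) = b :: l := by
      match hd : v.drop (2 * q.length) with
      | [] =>
        have := congrArg List.length hd
        simp at this; omega
      | b :: l => exact ⟨b, l, rfl⟩
    rw [hbl] at hr
    have hr2 := hr.trans (RunsTo.one (l14c O [] l _ _ _ b))
    have := not_accepts_of hr2 (pc23 rfl) (T := T) (by omega)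
    exact ⟨fun h => absurd h this, fun h => by omega⟩

end UA

theorem mem_join_false (A B : Lang) (y : Str) : false :: y ∈ join A B ↔ y ∈ A := by
  constructor
  · rintro ⟨z, ⟨h, hz⟩ | ⟨h, _⟩⟩
    · simp at h; rwa [h]
    · simp at h
  · intro h
    exact ⟨y, Or.inl ⟨rfl, h⟩⟩

theorem mem_join_true (A B : Lang) (y : Str) : true :: y ∈ join A B ↔ y ∈ B := by
  constructor
  · rintro ⟨z, ⟨h, hz⟩ | ⟨h, hz⟩⟩
    · simp at h
    · simp at h; rwa [h]
  · intro h
    exact ⟨y, Or.inr ⟨rfl, h⟩⟩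

theorem bound30 (n : ℕ) : 12 * n + 10 ≤ n ^ 30 + 30 ∧ 2 * n ≤ n ^ 30 + 30 := by
  rcases Nat.lt_or_ge n 2 with h | h
  · interval_cases n <;> simp
  · have h1 : n * 2 ^ 29 ≤ n ^ 30 := by
      calc n * 2 ^ 29 ≤ n * n ^ 29 := Nat.mul_le_mul_left _ (Nat.pow_le_pow_left h 29)
        _ = n ^ 30 := by ring
    have h2 : (2 : ℕ) ^ 29 = 536870912 := by norm_num
    omega

/-- row UA -/
theorem st_UA : ST_UA := by
  intro T R
  refine ⟨progA, 30, fun q => ?_⟩
  obtain ⟨hb1, hb2⟩ := bound30 q.length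
  constructor
  · rintro ⟨v, hv, hT, hR⟩
    refine ⟨v, by omega, ?_⟩
    rw [UA.spec q v _ hb1]
    refine ⟨hv, ?_, fun i hi => ?_⟩
    · rw [mem_join_false]; exact hT
    · have e : List.replicate i true ++ (true :: false :: wenc q v [])
          = true :: code q v i := by
        rw [code, ← List.cons_append, ← List.replicate_succ, List.replicate_succ',
          List.append_assoc]; rfl
      rw [e, mem_join_true]
      exact hR i hi
  · rintro ⟨v, _, hacc⟩
    rw [UA.spec q v _ hb1] at hacc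
    obtain ⟨hv, hT, hR⟩ := hacc
    refine ⟨v, hv, ?_, fun i hi => ?_⟩
    · rwa [mem_join_false] at hT
    · have e : List.replicate i true ++ (true :: false :: wenc q v [])
          = true :: code q v i := by
        rw [code, ← List.cons_append, ← List.replicate_succ, List.replicate_succ',
          List.append_assoc]; rfl
      have := hR i hi
      rw [e, mem_join_true] at this
      exact this

end Pool.Agent.Helper62.CS
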