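import Pool.Agent.Helper62.CS.Stmts2
import Pool.Agent.Helper62.CS.UA

/-!
Row UR of project CS: the program `progR` is correct.
-/

namespace Pool.Agent.Helper62.CS

open Classical

namespace UR

open UA (RunsTo RunsTo.refl RunsTo.trans RunsTo.mono RunsTo.one RunsTo.head accepts_of
  not_accepts_of)

/-- eight stacks -/
def st8 (s0 s1 s2 s3 s4 s5 s6 s7 : Str) : ℕ → Str := fun i =>
  match i with
  | 0 => s0
  | 1 => s1
  | 2 => s2
  | 3 => s3
  | 4 => s4
  | 5 => s5
  | 6 => s6
  | 7 => s7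
  | _ => []

theorem upd0 (s0 s1 s2 s3 s4 s5 s6 s7 x : Str) :
    Function.update (st8 s0 s1 s2 s3 s4 s5 s6 s7) 0 x = st8 x s1 s2 s3 s4 s5 s6 s7 := by
  funext i
  rcases i with _ | _ | _ | _ | _ | _ | _ | _ | i <;> simp [st8, Function.update]

theorem upd1 (s0 s1 s2 s3 s4 s5 s6 s7 x : Str) :
    Function.update (st8 s0 s1 s2 s3 s4 s5 s6 s7) 1 x = st8 s0 x s2 s3 s4 s5 s6 s7 := by
  funext i
  rcases i with _ | _ | _ | _ | _ | _ | _ | _ | i <;> simp [st8, Function.update]

theorem upd2 (s0 s1 s2 s3 s4 s5 s6 s7 x : Str) :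
    Function.update (st8 s0 s1 s2 s3 s4 s5 s6 s7) 2 x = st8 s0 s1 x s3 s4 s5 s6 s7 := by
  funext i
  rcases i with _ | _ | _ | _ | _ | _ | _ | _ | i <;> simp [st8, Function.update]

theorem upd3 (s0 s1 s2 s3 s4 s5 s6 s7 x : Str) :
    Function.update (st8 s0 s1 s2 s3 s4 s5 s6 s7) 3 x = st8 s0 s1 s2 x s4 s5 s6 s7 := by
  funext i
  rcases i with _ | _ | _ | _ | _ | _ | _ | _ | i <;> simp [st8, Function.update]

theorem upd4 (s0 s1 s2 s3 s4 s5 s6 s7 x : Str) :
    Function.update (st8 s0 s1 s2 s3 s4 s5 s6 s7) 4 x = st8 s0 s1 s2 s3 x s5 s6 s7 := by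
  funext i
  rcases i with _ | _ | _ | _ | _ | _ | _ | _ | i <;> simp [st8, Function.update]

theorem upd5 (s0 s1 s2 s3 s4 s5 s6 s7 x : Str) :
    Function.update (st8 s0 s1 s2 s3 s4 s5 s6 s7) 5 x = st8 s0 s1 s2 s3 s4 x s6 s7 := by
  funext i
  rcases i with _ | _ | _ | _ | _ | _ | _ | _ | i <;> simp [st8, Function.update]

theorem upd6 (s0 s1 s2 s3 s4 s5 s6 s7 x : Str) :
    Function.update (st8 s0 s1 s2 s3 s4 s5 s6 s7) 6 x = st8 s0 s1 s2 s3 s4 s5 x s7 := by
  funext i
  rcases i with _ | _ | _ | _ | _ | _ | _ | _ | i <;> simp [st8, Function.update]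

theorem upd7 (s0 s1 s2 s3 s4 s5 s6 s7 x : Str) :
    Function.update (st8 s0 s1 s2 s3 s4 s5 s6 s7) 7 x = st8 s0 s1 s2 s3 s4 s5 s6 x := by
  funext i
  rcases i with _ | _ | _ | _ | _ | _ | _ | _ | i <;> simp [st8, Function.update]

variable (O : Lang) (s0 s1 s2 s3 s4 s5 s6 s7 : Str)

theorem l0n : step progR O ⟨0, st8 [] s1 s2 s3 s4 s5 s6 s7⟩ =
    ⟨17, st8 [] s1 s2 s3 s4 s5 s6 s7⟩ := by
  simp [step, stepA, progR, st8]

theorem l0f : step progR O ⟨0, st8 (false :: s0) s1 s2 s3 s4 s5 s6 s7⟩ =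
    ⟨1, st8 s0 s1 s2 s3 s4 s5 s6 s7⟩ := by
  simp [step, stepA, progR, upd0]; rfl

theorem l0t : step progR O ⟨0, st8 (true :: s0) s1 s2 s3 s4 s5 s6 s7⟩ =
    ⟨2, st8 s0 s1 s2 s3 s4 s5 s6 s7⟩ := by
  simp [step, stepA, progR, upd0]; rfl

theorem l1 : step progR O ⟨1, st8 s0 s1 s2 s3 s4 s5 s6 s7⟩ =
    ⟨3, st8 s0 s1 (false :: s2) s3 s4 s5 s6 s7⟩ := by
  simp [step, stepA, progR, upd2]; rfl

theorem l2 : step progR O ⟨2, st8 s0 s1 s2 s3 s4 s5 s6 s7⟩ =
    ⟨3, st8 s0 s1 (true :: s2) s3 s4 s5 s6 s7⟩ := by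
  simp [step, stepA, progR, upd2]; rfl

theorem l3 : step progR O ⟨3, st8 s0 s1 s2 s3 s4 s5 s6 s7⟩ =
    ⟨4, st8 s0 s1 s2 (true :: s3) s4 s5 s6 s7⟩ := by
  simp [step, stepA, progR, upd3]; rfl

theorem l4 : step progR O ⟨4, st8 s0 s1 s2 s3 s4 s5 s6 s7⟩ =
    ⟨5, st8 s0 s1 s2 s3 s4 (true :: s5) s6 s7⟩ := by
  simp [step, stepA, progR, upd5]; rfl

theorem l5 : step progR O ⟨5, st8 s0 s1 s2 s3 s4 s5 s6 s7⟩ =
    ⟨6, st8 s0 s1 s2 s3 s4 s5 (true :: s6) s7⟩ := by
  simp [step, stepA, progR, upd6]; rfl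

theorem l6 : step progR O ⟨6, st8 s0 s1 s2 s3 s4 s5 s6 s7⟩ =
    ⟨7, st8 s0 s1 s2 s3 s4 s5 s6 (true :: s7)⟩ := by
  simp [step, stepA, progR, upd7]; rfl

theorem l7n : step progR O ⟨7, st8 s0 [] s2 s3 s4 s5 s6 s7⟩ =
    ⟨44, st8 s0 [] s2 s3 s4 s5 s6 s7⟩ := by
  simp [step, stepA, progR, st8]

theorem l7f : step progR O ⟨7, st8 s0 (false :: s1) s2 s3 s4 s5 s6 s7⟩ =
    ⟨8, st8 s0 s1 s2 s3 s4 s5 s6 s7⟩ := by
  simp [step, stepA, progR, upd1]; rfl

theorem l7t : step progR O ⟨7, st8 s0 (true :: s1) s2 s3 s4 s5 s6 s7⟩ =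
    ⟨10, st8 s0 s1 s2 s3 s4 s5 s6 s7⟩ := by
  simp [step, stepA, progR, upd1]; rfl

theorem l8 : step progR O ⟨8, st8 s0 s1 s2 s3 s4 s5 s6 s7⟩ =
    ⟨9, st8 s0 s1 (false :: s2) s3 s4 s5 s6 s7⟩ := by
  simp [step, stepA, progR, upd2]; rfl

theorem l9 : step progR O ⟨9, st8 s0 s1 s2 s3 s4 s5 s6 s7⟩ =
    ⟨12, st8 s0 s1 s2 s3 (false :: s4) s5 s6 s7⟩ := by
  simp [step, stepA, progR, upd4]; rfl

theorem l10 : step progR O ⟨10, st8 s0 s1 s2 s3 s4 s5 s6 s7⟩ =
    ⟨11, st8 s0 s1 (true :: s2) s3 s4 s5 s6 s7⟩ := by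
  simp [step, stepA, progR, upd2]; rfl

theorem l11 : step progR O ⟨11, st8 s0 s1 s2 s3 s4 s5 s6 s7⟩ =
    ⟨12, st8 s0 s1 s2 s3 (true :: s4) s5 s6 s7⟩ := by
  simp [step, stepA, progR, upd4]; rfl

theorem l12n : step progR O ⟨12, st8 s0 [] s2 s3 s4 s5 s6 s7⟩ =
    ⟨44, st8 s0 [] s2 s3 s4 s5 s6 s7⟩ := by
  simp [step, stepA, progR, st8]

theorem l12f : step progR O ⟨12, st8 s0 (false :: s1) s2 s3 s4 s5 s6 s7⟩ =
    ⟨13, st8 s0 s1 s2 s3 s4 s5 s6 s7⟩ := by
  simp [step, stepA, progR, upd1]; rfl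

theorem l12t : step progR O ⟨12, st8 s0 (true :: s1) s2 s3 s4 s5 s6 s7⟩ =
    ⟨15, st8 s0 s1 s2 s3 s4 s5 s6 s7⟩ := by
  simp [step, stepA, progR, upd1]; rfl

theorem l13 : step progR O ⟨13, st8 s0 s1 s2 s3 s4 s5 s6 s7⟩ =
    ⟨14, st8 s0 s1 (false :: s2) s3 s4 s5 s6 s7⟩ := by
  simp [step, stepA, progR, upd2]; rfl

theorem l14 : step progR O ⟨14, st8 s0 s1 s2 s3 s4 s5 s6 s7⟩ =
    ⟨0, st8 s0 s1 s2 s3 (false :: s4) s5 s6 s7⟩ := by
  simp [step, stepA, progR, upd4]; rfl

theorem l15 : step progR O ⟨15, st8 s0 s1 s2 s3 s4 s5 s6 s7⟩ =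
    ⟨16, st8 s0 s1 (true :: s2) s3 s4 s5 s6 s7⟩ := by
  simp [step, stepA, progR, upd2]; rfl

theorem l16 : step progR O ⟨16, st8 s0 s1 s2 s3 s4 s5 s6 s7⟩ =
    ⟨0, st8 s0 s1 s2 s3 (true :: s4) s5 s6 s7⟩ := by
  simp [step, stepA, progR, upd4]; rfl

theorem l17n : step progR O ⟨17, st8 s0 [] s2 s3 s4 s5 s6 s7⟩ =
    ⟨18, st8 s0 [] s2 s3 s4 s5 s6 s7⟩ := by
  simp [step, stepA, progR, st8]

theorem l17c (b : Bool) : step progR O ⟨17, st8 s0 (b :: s1) s2 s3 s4 s5 s6 s7⟩ =
    ⟨44, st8 s0 s1 s2 s3 s4 s5 s6 s7⟩ := by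
  cases b <;> (simp [step, stepA, progR, upd1]; rfl)

theorem l18n : step progR O ⟨18, st8 s0 s1 s2 s3 s4 [] s6 s7⟩ =
    ⟨44, st8 s0 s1 s2 s3 s4 [] s6 s7⟩ := by
  simp [step, stepA, progR, st8]

theorem l18t : step progR O ⟨18, st8 s0 s1 s2 s3 s4 (true :: s5) s6 s7⟩ =
    ⟨19, st8 s0 s1 s2 s3 s4 s5 s6 s7⟩ := by
  simp [step, stepA, progR, upd5]; rfl

theorem l19n : step progR O ⟨19, st8 s0 s1 s2 s3 [] s5 s6 s7⟩ =
    ⟨44, st8 s0 s1 s2 s3 [] s5 s6 s7⟩ := by
  simp [step, stepA, progR, st8]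

theorem l19f : step progR O ⟨19, st8 s0 s1 s2 s3 (false :: s4) s5 s6 s7⟩ =
    ⟨21, st8 s0 s1 s2 s3 s4 s5 s6 s7⟩ := by
  simp [step, stepA, progR, upd4]; rfl

theorem l19t : step progR O ⟨19, st8 s0 s1 s2 s3 (true :: s4) s5 s6 s7⟩ =
    ⟨20, st8 s0 s1 s2 s3 s4 s5 s6 s7⟩ := by
  simp [step, stepA, progR, upd4]; rfl

theorem l20 : step progR O ⟨20, st8 s0 s1 s2 s3 s4 s5 s6 s7⟩ =
    ⟨18, st8 s0 s1 s2 s3 s4 s5 (true :: s6) s7⟩ := by
  simp [step, stepA, progR, upd6]; rfl

theorem l21n : step progR O ⟨21, st8 s0 s1 s2 s3 s4 [] s6 s7⟩ =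
    ⟨23, st8 s0 s1 s2 s3 s4 [] s6 s7⟩ := by
  simp [step, stepA, progR, st8]

theorem l21t : step progR O ⟨21, st8 s0 s1 s2 s3 s4 (true :: s5) s6 s7⟩ =
    ⟨22, st8 s0 s1 s2 s3 s4 s5 s6 s7⟩ := by
  simp [step, stepA, progR, upd5]; rfl

theorem l22n : step progR O ⟨22, st8 s0 s1 s2 s3 [] s5 s6 s7⟩ =
    ⟨44, st8 s0 s1 s2 s3 [] s5 s6 s7⟩ := by
  simp [step, stepA, progR, st8]

theorem l22f : step progR O ⟨22, st8 s0 s1 s2 s3 (false :: s4) s5 s6 s7⟩ =
    ⟨21, st8 s0 s1 s2 s3 s4 s5 s6 s7⟩ := by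
  simp [step, stepA, progR, upd4]; rfl

theorem l22t : step progR O ⟨22, st8 s0 s1 s2 s3 (true :: s4) s5 s6 s7⟩ =
    ⟨44, st8 s0 s1 s2 s3 s4 s5 s6 s7⟩ := by
  simp [step, stepA, progR, upd4]; rfl

theorem init_eq (q v : Str) : init [q, v] = ⟨0, st8 q v [] [] [] [] [] []⟩ := by
  simp only [init]
  congr 1
  funext i
  rcases i with _ | _ | _ | _ | _ | _ | _ | _ | i <;> simp [st8]

/-! ### general stacks -/

theorem m39 (s : ℕ → Str) : step progR O ⟨39, s⟩ = ⟨40, Function.update s 2 (false :: s 2)⟩ := by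
  simp [step, stepA, progR]

theorem m40n (s : ℕ → Str) (h : s 3 = []) : step progR O ⟨40, s⟩ = ⟨43, s⟩ := by
  simp [step, stepA, progR, h]

theorem m40t (s : ℕ → Str) (l : Str) (h : s 3 = true :: l) :
    step progR O ⟨40, s⟩ = ⟨41, Function.update s 3 l⟩ := by
  simp [step, stepA, progR, h]

theorem m41 (s : ℕ → Str) : step progR O ⟨41, s⟩ = ⟨if s 2 ∈ O then 42 else 44, s⟩ := by
  simp [step, stepA, progR, qstr]

theorem m42 (s : ℕ → Str) : step progR O ⟨42, s⟩ = ⟨40, Function.update s 2 (true :: s 2)⟩ := by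
  simp [step, stepA, progR]

variable {O s0 s1 s2 s3 s4 s5 s6 s7}

/-- the first three symbols of a round -/
theorem roundA (bq : Bool) :
    RunsTo progR O 6 ⟨0, st8 (bq :: s0) s1 s2 s3 s4 s5 s6 s7⟩
      ⟨7, st8 s0 s1 (bq :: s2) (true :: s3) s4 (true :: s5) (true :: s6) (true :: s7)⟩ := by
  cases bq
  · exact RunsTo.head (l0f _ _ _ _ _ _ _ _ _) (RunsTo.head (l1 _ _ _ _ _ _ _ _ _)
      (RunsTo.head (l3 _ _ _ _ _ _ _ _ _) (RunsTo.head (l4 _ _ _ _ _ _ _ _ _)
      (RunsTo.head (l5 _ _ _ _ _ _ _ _ _) (RunsTo.one (l6 _ _ _ _ _ _ _ _ _))))))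
  · exact RunsTo.head (l0t _ _ _ _ _ _ _ _ _) (RunsTo.head (l2 _ _ _ _ _ _ _ _ _)
      (RunsTo.head (l3 _ _ _ _ _ _ _ _ _) (RunsTo.head (l4 _ _ _ _ _ _ _ _ _)
      (RunsTo.head (l5 _ _ _ _ _ _ _ _ _) (RunsTo.one (l6 _ _ _ _ _ _ _ _ _))))))

theorem roundB (b1 : Bool) :
    RunsTo progR O 3 ⟨7, st8 s0 (b1 :: s1) s2 s3 s4 s5 s6 s7⟩
      ⟨12, st8 s0 s1 (b1 :: s2) s3 (b1 :: s4) s5 s6 s7⟩ := by
  cases b1
  · exact RunsTo.head (l7f _ _ _ _ _ _ _ _ _) (RunsTo.head (l8 _ _ _ _ _ _ _ _ _)
      (RunsTo.one (l9 _ _ _ _ _ _ _ _ _)))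
  · exact RunsTo.head (l7t _ _ _ _ _ _ _ _ _) (RunsTo.head (l10 _ _ _ _ _ _ _ _ _)
      (RunsTo.one (l11 _ _ _ _ _ _ _ _ _)))

theorem roundC (b2 : Bool) :
    RunsTo progR O 3 ⟨12, st8 s0 (b2 :: s1) s2 s3 s4 s5 s6 s7⟩
      ⟨0, st8 s0 s1 (b2 :: s2) s3 (b2 :: s4) s5 s6 s7⟩ := by
  cases b2
  · exact RunsTo.head (l12f _ _ _ _ _ _ _ _ _) (RunsTo.head (l13 _ _ _ _ _ _ _ _ _)
      (RunsTo.one (l14 _ _ _ _ _ _ _ _ _)))
  · exact RunsTo.head (l12t _ _ _ _ _ _ _ _ _) (RunsTo.head (l15 _ _ _ _ _ _ _ _ _)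
      (RunsTo.one (l16 _ _ _ _ _ _ _ _ _)))

/-- the first loop -/
theorem loop1 : ∀ (q v acc c w : Str),
    (2 * q.length ≤ v.length → RunsTo progR O (12 * q.length + 1) ⟨0, st8 q v acc c w c c c⟩
      ⟨17, st8 [] (v.drop (2 * q.length)) (wenc q v acc) (List.replicate q.length true ++ c)
        ((v.take (2 * q.length)).reverse ++ w) (List.replicate q.length true ++ c)
        (List.replicate q.length true ++ c) (List.replicate q.length true ++ c)⟩) ∧
    (v.length < 2 * q.length → ∃ c' : Cfg, c'.pc = 44 ∧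
      RunsTo progR O (12 * q.length + 1) ⟨0, st8 q v acc c w c c c⟩ c') := by
  intro q
  induction q with
  | nil =>
    intro v acc c w
    refine ⟨fun _ => ?_, fun h => by simp at h⟩
    have := RunsTo.one (l0n O v acc c w c c c)
    simpa [wenc] using this
  | cons bq q ih =>
    intro v acc c w
    have hA := roundA (O := O) (s0 := q) (s1 := v) (s2 := acc) (s3 := c) (s4 := w) (s5 := c)
      (s6 := c) (s7 := c) bq
    match v with
    | [] =>
      refine ⟨fun h => by simp at h, fun _ => ?_⟩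
      exact ⟨_, rfl, (hA.trans (RunsTo.one (l7n _ _ _ _ _ _ _ _))).mono (by simp; omega)⟩
    | [b1] =>
      refine ⟨fun h => by simp at h; omega, fun _ => ?_⟩
      exact ⟨_, rfl, ((hA.trans (roundB b1)).trans (RunsTo.one (l12n _ _ _ _ _ _ _ _))).mono
        (by simp; omega)⟩
    | b1 :: b2 :: v =>
      have hr := (hA.trans (roundB b1)).trans (roundC b2)
      obtain ⟨ih1, ih2⟩ := ih v (b2 :: b1 :: bq :: acc) (true :: c) (b2 :: b1 :: w)
      constructor
      · intro h
        have h' : 2 * q.length ≤ v.length := by simp at h; omega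
        have := hr.trans (ih1 h')
        have e : 2 * (bq :: q).length = 2 * q.length + 2 := by simp; ring
        rw [e]
        have e2 : List.replicate (bq :: q).length true ++ c
            = List.replicate q.length true ++ true :: c := by
          rw [List.length_cons, List.replicate_succ', List.append_assoc]; rfl
        rw [e2]
        refine RunsTo.mono (K := 6 + 3 + 3 + (12 * q.length + 1)) ?_ (by simp; omega)
        simpa [wenc] using this
      · intro h
        have h' : v.length < 2 * q.length := by simp at h; omega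
        obtain ⟨c', hc', hh⟩ := ih2 h'
        exact ⟨c', hc', (hr.trans hh).mono (by simp; omega)⟩

/-- the zeros -/
theorem zeros : ∀ (m : ℕ) (w : Str),
    (∃ x : Str, w = List.replicate m false ++ x ∧
      RunsTo progR O (2 * m + 1) ⟨21, st8 s0 s1 s2 s3 w (List.replicate m true) s6 s7⟩
        ⟨23, st8 s0 s1 s2 s3 x [] s6 s7⟩) ∨
    ((∀ x : Str, w ≠ List.replicate m false ++ x) ∧ ∃ c' : Cfg, c'.pc = 44 ∧
      RunsTo progR O (2 * m + 1) ⟨21, st8 s0 s1 s2 s3 w (List.replicate m true) s6 s7⟩ c') := by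
  intro m
  induction m with
  | zero =>
    intro w
    left
    exact ⟨w, by simp, RunsTo.one (l21n _ _ _ _ _ _ _ _)⟩
  | succ m ih =>
    intro w
    have h21 : step progR O ⟨21, st8 s0 s1 s2 s3 w (List.replicate (m + 1) true) s6 s7⟩
        = ⟨22, st8 s0 s1 s2 s3 w (List.replicate m true) s6 s7⟩ := by
      rw [List.replicate_succ]; exact l21t _ _ _ _ _ _ _ _ _
    match w with
    | [] =>
      right
      refine ⟨fun x h => ?_, _, rfl, (RunsTo.head h21 (RunsTo.one (l22n _ _ _ _ _ _ _ _))).mono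
        (by omega)⟩
      rw [List.replicate_succ] at h
      simp at h
    | true :: w =>
      right
      refine ⟨fun x h => ?_, _, rfl,
        (RunsTo.head h21 (RunsTo.one (l22t _ _ _ _ _ _ _ _ _))).mono (by omega)⟩
      rw [List.replicate_succ] at h
      simp at h
    | false :: w =>
      have hr : RunsTo progR O 2
          ⟨21, st8 s0 s1 s2 s3 (false :: w) (List.replicate (m + 1) true) s6 s7⟩
          ⟨21, st8 s0 s1 s2 s3 w (List.replicate m true) s6 s7⟩ :=
        RunsTo.head h21 (RunsTo.one (l22f _ _ _ _ _ _ _ _ _))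
      rcases ih w with ⟨x, hx, hh⟩ | ⟨hx, c', hc', hh⟩
      · left
        exact ⟨x, by rw [List.replicate_succ, hx]; rfl, (hr.trans hh).mono (by omega)⟩
      · right
        refine ⟨fun x h => ?_, c', hc', (hr.trans hh).mono (by omega)⟩
        rw [List.replicate_succ] at h
        simp only [List.cons_append, List.cons.injEq, true_and] at h
        exact hx x h

/-- the ones -/
theorem ones : ∀ (m : ℕ) (w s6 : Str),
    (∃ (j : ℕ) (x : Str), j < m ∧
      w = List.replicate j true ++ (List.replicate (m - j) false ++ x) ∧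
      RunsTo progR O (3 * m + 1) ⟨18, st8 s0 s1 s2 s3 w (List.replicate m true) s6 s7⟩
        ⟨23, st8 s0 s1 s2 s3 x [] (List.replicate j true ++ s6) s7⟩) ∨
    ((∀ (j : ℕ) (x : Str), j < m →
      w ≠ List.replicate j true ++ (List.replicate (m - j) false ++ x)) ∧
      ∃ c' : Cfg, c'.pc = 44 ∧
      RunsTo progR O (3 * m + 1) ⟨18, st8 s0 s1 s2 s3 w (List.replicate m true) s6 s7⟩ c') := by
  intro m
  induction m with
  | zero =>
    intro w s6
    right
    exact ⟨fun j x h => absurd h (Nat.not_lt_zero _), _, rfl, RunsTo.one (l18n _ _ _ _ _ _ _ _)⟩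
  | succ m ih =>
    intro w s6
    have h18 : step progR O ⟨18, st8 s0 s1 s2 s3 w (List.replicate (m + 1) true) s6 s7⟩
        = ⟨19, st8 s0 s1 s2 s3 w (List.replicate m true) s6 s7⟩ := by
      rw [List.replicate_succ]; exact l18t _ _ _ _ _ _ _ _ _
    match w with
    | [] =>
      right
      refine ⟨fun j x hj h => ?_, _, rfl,
        (RunsTo.head h18 (RunsTo.one (l19n _ _ _ _ _ _ _ _))).mono (by omega)⟩
      have := congrArg List.length h
      simp at this
      omega
    | true :: w =>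
      have hr : RunsTo progR O 3
          ⟨18, st8 s0 s1 s2 s3 (true :: w) (List.replicate (m + 1) true) s6 s7⟩
          ⟨18, st8 s0 s1 s2 s3 w (List.replicate m true) (true :: s6) s7⟩ :=
        RunsTo.head h18 (RunsTo.head (l19t _ _ _ _ _ _ _ _ _) (RunsTo.one (l20 _ _ _ _ _ _ _ _ _)))
      rcases ih w (true :: s6) with ⟨j, x, hj, hx, hh⟩ | ⟨hx, c', hc', hh⟩
      · left
        refine ⟨j + 1, x, by omega, ?_, ?_⟩
        · rw [List.replicate_succ, Nat.add_sub_add_right, hx]; rfl
        · have e : List.replicate (j + 1) true ++ s6 = List.replicate j true ++ true :: s6 := by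
            rw [List.replicate_succ', List.append_assoc]; rfl
          rw [e]
          exact (hr.trans hh).mono (by omega)
      · right
        refine ⟨fun j x hj h => ?_, c', hc', (hr.trans hh).mono (by omega)⟩
        rcases j with _ | j
        · rw [Nat.sub_zero, List.replicate_succ] at h
          simp at h
        · rw [List.replicate_succ, Nat.add_sub_add_right] at h
          simp only [List.cons_append, List.cons.injEq, true_and] at h
          exact hx j x (by omega) h
    | false :: w =>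
      have hr : RunsTo progR O 2
          ⟨18, st8 s0 s1 s2 s3 (false :: w) (List.replicate (m + 1) true) s6 s7⟩
          ⟨21, st8 s0 s1 s2 s3 w (List.replicate m true) s6 s7⟩ :=
        RunsTo.head h18 (RunsTo.one (l19f _ _ _ _ _ _ _ _ _))
      rcases zeros (O := O) (s0 := s0) (s1 := s1) (s2 := s2) (s3 := s3) (s6 := s6) (s7 := s7) m w
        with ⟨x, hx, hh⟩ | ⟨hx, c', hc', hh⟩
      · left
        refine ⟨0, x, by omega, ?_, ?_⟩
        · rw [Nat.sub_zero, List.replicate_succ, hx]; rfl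
        · exact (hr.trans hh).mono (by omega)
      · right
        refine ⟨fun j x hj h => ?_, c', hc', (hr.trans hh).mono (by omega)⟩
        rcases j with _ | j
        · rw [Nat.sub_zero, List.replicate_succ] at h
          simp only [List.replicate_zero, List.nil_append, List.cons_append, List.cons.injEq,
            true_and] at h
          exact hx x h
        · rw [List.replicate_succ] at h
          simp at h

/-- the last loop -/
theorem loop2 : ∀ (m : ℕ) (c : Str) (s : ℕ → Str), s 2 = c → s 3 = List.replicate m true →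
    ((∀ i < m, List.replicate i true ++ c ∈ O) →
      ∃ c' : Cfg, c'.pc = 43 ∧ RunsTo progR O (3 * m + 1) ⟨40, s⟩ c') ∧
    ((¬ ∀ i < m, List.replicate i true ++ c ∈ O) →
      ∃ c' : Cfg, c'.pc = 44 ∧ RunsTo progR O (3 * m + 1) ⟨40, s⟩ c') := by
  intro m
  induction m with
  | zero =>
    intro c s _ h3
    refine ⟨fun _ => ⟨_, rfl, RunsTo.one (m40n O s (by simpa using h3))⟩, fun h => ?_⟩
    exact absurd (fun i hi => absurd hi (Nat.not_lt_zero _)) h
  | succ m ih =>
    intro c s h2 h3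
    obtain ⟨s', hs'⟩ : ∃ s', s' = Function.update s 3 (List.replicate m true) := ⟨_, rfl⟩
    have h40 : step progR O ⟨40, s⟩ = ⟨41, s'⟩ := by
      rw [hs']
      exact m40t O s _ (by rw [h3, List.replicate_succ])
    have h2' : s' 2 = c := by rw [hs', Function.update_of_ne (by norm_num), h2]
    have h3' : s' 3 = List.replicate m true := by rw [hs', Function.update_self]
    by_cases hs : c ∈ O
    · have h41 : step progR O ⟨41, s'⟩ = ⟨42, s'⟩ := by
        rw [m41, h2', if_pos hs]
      obtain ⟨s'', hs''⟩ : ∃ s'', s'' = Function.update s' 2 (true :: c) := ⟨_, rfl⟩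
      have h42 : step progR O ⟨42, s'⟩ = ⟨40, s''⟩ := by
        rw [m42, h2', hs'']
      have h2'' : s'' 2 = true :: c := by rw [hs'', Function.update_self]
      have h3'' : s'' 3 = List.replicate m true := by
        rw [hs'', Function.update_of_ne (by norm_num), h3']
      have hr : RunsTo progR O 3 ⟨40, s⟩ ⟨40, s''⟩ :=
        RunsTo.head h40 (RunsTo.head h41 (RunsTo.one h42))
      have key : (∀ i < m + 1, List.replicate i true ++ c ∈ O) ↔
          (∀ i < m, List.replicate i true ++ (true :: c) ∈ O) := by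
        have e : ∀ i : ℕ, List.replicate i true ++ (true :: c)
            = List.replicate (i + 1) true ++ c := by
          intro i
          rw [List.replicate_succ', List.append_assoc]; rfl
        constructor
        · intro h i hi
          rw [e]; exact h (i + 1) (by omega)
        · intro h i hi
          rcases i with _ | i
          · simpa using hs
          · rw [← e]; exact h i (by omega)
      obtain ⟨ih1, ih2⟩ := ih (true :: c) s'' h2'' h3''
      constructor
      · intro h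
        obtain ⟨c', hc', hh⟩ := ih1 (key.1 h)
        exact ⟨c', hc', (hr.trans hh).mono (by omega)⟩
      · intro h
        obtain ⟨c', hc', hh⟩ := ih2 (fun h' => h (key.2 h'))
        exact ⟨c', hc', (hr.trans hh).mono (by omega)⟩
    · have h41 : step progR O ⟨41, s'⟩ = ⟨44, s'⟩ := by
        rw [m41, h2', if_neg hs]
      have hr : RunsTo progR O 2 ⟨40, s⟩ ⟨44, s'⟩ := RunsTo.head h40 (RunsTo.one h41)
      refine ⟨fun h => absurd (by simpa using h 0 (by omega)) hs,
        fun _ => ⟨_, rfl, hr.mono (by omega)⟩⟩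

theorem pc43 {c : Cfg} (h : c.pc = 43) : progR[c.pc]? = some Instr.accept := by
  rw [h]; rfl

theorem pc44 {c : Cfg} (h : c.pc = 44) : progR[c.pc]? = some Instr.reject := by
  rw [h]; rfl

/-- the specification of the program -/
theorem spec (hB : ST_BLD) (q v : Str) (T : ℕ)
    (hT : 40 * q.length ^ 2 + 81 * q.length + 60 ≤ T) :
    Accepts progR O [q, v] T ↔ (v.length = 2 * q.length ∧ v.reverse ∈ T0 ∧
      ∀ i < q.length, List.replicate i true ++ (false :: wenc q v []) ∈ O) := by
  obtain ⟨h1, h2⟩ := loop1 (O := O) q v [] [] []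
  rcases lt_trichotomy v.length (2 * q.length) with hlt | heq | hgt
  · obtain ⟨c', hc', hr⟩ := h2 hlt
    rw [← init_eq] at hr
    have := not_accepts_of hr (pc44 hc') (T := T) (by nlinarith)
    exact ⟨fun h => absurd h this, fun h => by omega⟩
  · have hr := h1 heq.ge
    rw [← init_eq, ← heq] at hr
    simp only [List.drop_length, List.take_length, List.append_nil] at hr
    have hr2 := hr.trans (RunsTo.one (l17n O [] _ _ _ _ _ _))
    rcases ones (O := O) (s0 := []) (s1 := []) (s2 := wenc q v [])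
      (s3 := List.replicate q.length true) (s7 := List.replicate q.length true) q.length v.reverse
      (List.replicate q.length true) with ⟨j, x, hj, hx, hh⟩ | ⟨hx, c', hc', hh⟩
    · have hr3 := hr2.trans hh
      have hxl : x.length = q.length := by
        have := congrArg List.length hx
        simp at this
        omega
      obtain ⟨t, s', ht, hst, hs2, hs3⟩ := hB O (q.length + j) q.length x
        (st8 [] [] (wenc q v []) (List.replicate q.length true) x []
          (List.replicate j true ++ List.replicate q.length true)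
          (List.replicate q.length true)) (by omega) rfl
        (by show List.replicate j true ++ List.replicate q.length true = _
            rw [← List.replicate_add, add_comm]) rfl rfl rfl
      have hs2' : s' 2 = wenc q v [] := hs2
      have hs3' : s' 3 = List.replicate q.length true := hs3
      have htb : t ≤ 40 * q.length ^ 2 + 60 * q.length + 20 := by
        refine ht.trans ?_
        rw [hxl]
        have : 20 * (q.length + j) + 20 ≤ 40 * q.length + 20 := by omega
        calc (20 * (q.length + j) + 20) * (q.length + 1)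
            ≤ (40 * q.length + 20) * (q.length + 1) := Nat.mul_le_mul_right _ this
          _ = 40 * q.length ^ 2 + 60 * q.length + 20 := by ring
      have hmem : v.reverse ∈ T0 ↔ bold (q.length + j) q.length x = true := by
        constructor
        · rintro ⟨n', j', x', hl', hj', hw', hb'⟩
          have hn : n' = q.length := by
            have h5 := congrArg List.length hw'
            simp at h5
            omega
          subst hn
          -- uniqueness of the form
          have huniq : ∀ (j j' m : ℕ) (x x' : Str), j < m → j' < m →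
              List.replicate j true ++ (List.replicate (m - j) false ++ x) =
              List.replicate j' true ++ (List.replicate (m - j') false ++ x') →
              j = j' ∧ x = x' := by
            intro j
            induction j with
            | zero =>
              intro j' m x x' hjm hj'm he
              rcases j' with _ | j'
              · refine ⟨rfl, ?_⟩
                exact List.append_cancel_left (List.append_cancel_left he)
              · obtain ⟨m, rfl⟩ : ∃ m', m = m' + 1 := ⟨m - 1, by omega⟩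
                rw [Nat.sub_zero, List.replicate_succ, List.replicate_succ] at he
                simp at he
            | succ j ihj =>
              intro j' m x x' hjm hj'm he
              obtain ⟨m, rfl⟩ : ∃ m', m = m' + 1 := ⟨m - 1, by omega⟩
              rcases j' with _ | j'
              · rw [Nat.sub_zero, List.replicate_succ, List.replicate_succ] at he
                simp at he
              · rw [List.replicate_succ, List.replicate_succ, Nat.add_sub_add_right,
                  Nat.add_sub_add_right] at he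
                simp only [List.cons_append, List.cons.injEq, true_and] at he
                obtain ⟨e1, e2⟩ := ihj j' m x x' (by omega) (by omega) he
                exact ⟨by omega, e2⟩
          obtain ⟨e1, e2⟩ := huniq j j' q.length x x' hj hj' (hx.symm.trans hw')
          rw [e1, e2]; exact hb'
        · intro hb
          exact ⟨q.length, j, x, hxl, hj, hx, hb⟩
      have hr4 : RunsTo progR O (12 * q.length + 1 + 1 + (3 * q.length + 1) + t) (init [q, v])
          ⟨if bold (q.length + j) q.length x = true then 39 else 44, s'⟩ :=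
        hr3.trans ⟨t, le_rfl, hst⟩
      by_cases hb : bold (q.length + j) q.length x = true
      · rw [if_pos hb] at hr4
        have h39 := hr4.trans (RunsTo.one (m39 O s'))
        obtain ⟨g1, g2⟩ := loop2 (O := O) q.length (false :: wenc q v [])
          (Function.update s' 2 (false :: s' 2)) (by rw [Function.update_self, hs2'])
          (by rw [Function.update_of_ne (by norm_num), hs3'])
        by_cases hall : ∀ i < q.length, List.replicate i true ++ (false :: wenc q v []) ∈ O
        · obtain ⟨c', hc', hh'⟩ := g1 hall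
          have := accepts_of (h39.trans hh') (pc43 hc') (T := T) (by omega)
          exact ⟨fun _ => ⟨heq, hmem.2 hb, hall⟩, fun _ => this⟩
        · obtain ⟨c', hc', hh'⟩ := g2 hall
          have := not_accepts_of (h39.trans hh') (pc44 hc') (T := T) (by omega)
          exact ⟨fun h => absurd h this, fun h => absurd h.2.2 hall⟩
      · rw [if_neg hb] at hr4
        have := not_accepts_of hr4 (pc44 rfl) (T := T) (by omega)
        exact ⟨fun h => absurd h this, fun h => absurd (hmem.1 h.2.1) hb⟩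
    · have := not_accepts_of (hr2.trans hh) (pc44 hc') (T := T) (by nlinarith)
      refine ⟨fun h => absurd h this, fun h => ?_⟩
      obtain ⟨_, ⟨n', j', x', hl', hj', hw', _⟩, _⟩ := h
      have hn : n' = q.length := by
        have h5 := congrArg List.length hw'
        simp at h5
        omega
      subst hn
      exact absurd hw' (hx j' x' hj')
  · have hr := h1 hgt.le
    rw [← init_eq] at hr
    obtain ⟨b, l, hbl⟩ : ∃ b l, v.drop (2 * q.length) = b :: l := by
      match hd : v.drop (2 * q.length) with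
      | [] =>
        have := congrArg List.length hd
        simp at this; omega
      | b :: l => exact ⟨b, l, rfl⟩
    rw [hbl] at hr
    have hr2 := hr.trans (RunsTo.one (l17c O [] l _ _ _ _ _ _ b))
    have := not_accepts_of hr2 (pc44 rfl) (T := T) (by nlinarith)
    exact ⟨fun h => absurd h this, fun h => by omega⟩

end UR

theorem bound200 (n : ℕ) : 40 * n ^ 2 + 81 * n + 60 ≤ n ^ 200 + 200 ∧ 2 * n ≤ n ^ 200 + 200 := by
  rcases Nat.lt_or_ge n 2 with h | h
  · interval_cases n <;> simp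
  · have h1 : n ^ 2 * 2 ^ 198 ≤ n ^ 200 := by
      calc n ^ 2 * 2 ^ 198 ≤ n ^ 2 * n ^ 198 := Nat.mul_le_mul_left _ (Nat.pow_le_pow_left h 198)
        _ = n ^ 200 := by rw [← pow_add]
    have h2 : 1000 ≤ 2 ^ 198 := by norm_num
    have h3 : n ^ 2 * 1000 ≤ n ^ 200 := (Nat.mul_le_mul_left _ h2).trans h1
    constructor <;> nlinarith

/-- row UR -/
theorem st_UR (hB : ST_BLD) : ST_UR := by
  intro R
  refine ⟨progR, 200, fun q => ?_⟩
  obtain ⟨hb1, hb2⟩ := bound200 q.length
  have e : ∀ (v : Str) (i : ℕ), List.replicate i true ++ (false :: wenc q v []) = code q v i :=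
    fun v i => rfl
  constructor
  · rintro ⟨v, hv, hT, hR⟩
    refine ⟨v, by omega, ?_⟩
    rw [UR.spec hB q v _ hb1]
    exact ⟨hv, hT, fun i hi => hR i hi⟩
  · rintro ⟨v, _, hacc⟩
    rw [UR.spec hB q v _ hb1] at hacc
    obtain ⟨hv, hT, hR⟩ := hacc
    exact ⟨v, hv, hT, fun i hi => hR i hi⟩

end Pool.Agent.Helper62.CS
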